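import Pool.Agent.N756.UA.Pr

/-! The different of a Kummer type extension `L = K(α)`, `α ^ ℓ = y`. -/

set_option autoImplicit false

open NumberField IsDedekindDomain Polynomial

namespace Pool.Agent.N756.UA

variable {K L : Type*} [Field K] [NumberField K] [Field L] [NumberField L] [Algebra K L]

theorem nu_under_le (w : HeightOneSpectrum (𝓞 L)) : nu (w.under (𝓞 K)) ≤ nu w := by
  have h0 := over_under (K := K) w
  have h1 : (w.under (𝓞 K)).asIdeal.IsPrime := (w.under (𝓞 K)).isPrime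
  have h2 := Ideal.absNorm_eq_pow_inertiaDeg'_of_liesOver w.asIdeal (w.under (𝓞 K)).asIdeal
    h1 (w.under (𝓞 K)).ne_bot
  have h3 : w.asIdeal.IsPrime := w.isPrime
  have h4 : 0 < (w.under (𝓞 K)).asIdeal.inertiaDeg' w.asIdeal := Ideal.inertiaDeg'_pos' _ _
  unfold nu
  have h5 := two_le_absNorm (w.under (𝓞 K))
  have h6 : Ideal.absNorm (w.under (𝓞 K)).asIdeal ≤ Ideal.absNorm w.asIdeal := by
    rw [h2]
    exact Nat.le_self_pow h4.ne' _
  apply Real.log_le_log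
  · exact_mod_cast (by omega : 0 < Ideal.absNorm (w.under (𝓞 K)).asIdeal)
  · exact_mod_cast h6

theorem ri_le_finrank (w : HeightOneSpectrum (𝓞 L)) : ri K w ≤ Module.finrank K L := by
  obtain ⟨W, hW, hsum⟩ := exists_fib (L := L) (w.under (𝓞 K))
  have h1 : (ri K w : ℝ) * nu w ≤ Module.finrank K L * nu (w.under (𝓞 K)) := by
    rw [← hsum]
    refine Finset.single_le_sum (f := fun w' => (ri K w' : ℝ) * nu w') ?_ ((hW w).2 rfl)
    intro w' _
    exact mul_nonneg (Nat.cast_nonneg _) (nu_pos w').le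
  have h2 := nu_under_le (K := K) w
  have h3 := nu_pos w
  have h4 : (ri K w : ℝ) * nu w ≤ Module.finrank K L * nu w :=
    h1.trans (mul_le_mul_of_nonneg_left h2 (Nat.cast_nonneg _))
  exact_mod_cast le_of_mul_le_mul_right h4 h3

theorem deriv_mem (ℓ : ℕ) (β : 𝓞 L) (hβ : Algebra.adjoin K {(algebraMap (𝓞 L) L β)} = ⊤) (c : 𝓞 K)
    (hc : β ^ ℓ = algebraMap (𝓞 K) (𝓞 L) c) :
    (ℓ : 𝓞 L) * β ^ (ℓ - 1) ∈ differentIdeal (𝓞 K) (𝓞 L) := by
  have h1 := aeval_derivative_mem_differentIdeal (𝓞 K) K L β hβ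
  have hint : IsIntegral (𝓞 K) β := Algebra.IsIntegral.isIntegral β
  have h2 : aeval β (X ^ ℓ - C c : (𝓞 K)[X]) = 0 := by
    simp [hc]
  obtain ⟨q, hq⟩ := minpoly.isIntegrallyClosed_dvd hint h2
  have h3 : aeval β (derivative (X ^ ℓ - C c : (𝓞 K)[X])) = (ℓ : 𝓞 L) * β ^ (ℓ - 1) := by
    simp [derivative_X_pow]
  rw [← h3, hq, derivative_mul, map_add, map_mul, map_mul, minpoly.aeval, zero_mul, add_zero]
  exact Ideal.mul_mem_right _ _ h1

/-- the local generator -/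
theorem good_beta {ℓ : ℕ} (hℓ : ℓ.Prime) (hfr : Module.finrank K L ≤ ℓ) {y : K} (hy : y ≠ 0) {α : L}
    (hα : α ^ ℓ = algebraMap K L y) (had : IntermediateField.adjoin K {α} = ⊤)
    (w : HeightOneSpectrum (𝓞 L)) :
    ∃ (β : 𝓞 L) (c : 𝓞 K), β ≠ 0 ∧ Algebra.adjoin K {(algebraMap (𝓞 L) L β)} = ⊤ ∧
      β ^ ℓ = algebraMap (𝓞 K) (𝓞 L) c ∧
      ((ℓ : ℤ) ∣ od (w.under (𝓞 K)) y → od w (algebraMap (𝓞 L) L β) = 0) ∧
      (¬ (ℓ : ℤ) ∣ od (w.under (𝓞 K)) y → od w (algebraMap (𝓞 L) L β) = 1) := by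
  set v := w.under (𝓞 K) with hv
  have hℓ0 : (ℓ : ℤ) ≠ 0 := by exact_mod_cast hℓ.ne_zero
  have hα0 : α ≠ 0 := by
    rintro rfl
    rw [zero_pow hℓ.ne_zero] at hα
    exact hy ((map_eq_zero _).1 hα.symm)
  obtain ⟨π, hπ0, hπ1⟩ := exists_unif v
  -- the exponents
  obtain ⟨i, j, k, m, g, h1, h2, h3, h4⟩ : ∃ (i j k m : ℤ) (g : ℤ), i * k + (ℓ : ℤ) * m = 1 ∧
      i * od v y + ℓ * j = g ∧ ((ℓ : ℤ) ∣ od v y → g = 0) ∧ (¬ (ℓ : ℤ) ∣ od v y → g = 1) := by
    by_cases hd : (ℓ : ℤ) ∣ od v y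
    · obtain ⟨m, hm⟩ := hd
      exact ⟨1, -m, 1, 0, 0, by ring, by rw [hm]; ring, fun _ => rfl, fun h => absurd ⟨m, hm⟩ h⟩
    · have hcop : IsCoprime (od v y) (ℓ : ℤ) := by
        have := (Nat.prime_iff_prime_int.1 hℓ).coprime_iff_not_dvd.2 hd
        exact this.symm
      obtain ⟨i, j, hij⟩ := hcop
      exact ⟨i, j, od v y, j, 1, by rw [← hij]; ring, by rw [← hij]; ring,
        fun h => absurd h hd, fun _ => rfl⟩
  have hg : 0 ≤ g := by
    by_cases hd : (ℓ : ℤ) ∣ od v y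
    · rw [h3 hd]
    · rw [h4 hd]; norm_num
  set y' : K := y ^ i * π ^ ((ℓ : ℤ) * j) with hy'
  have hy'0 : y' ≠ 0 := mul_ne_zero (zpow_ne_zero _ hy) (zpow_ne_zero _ hπ0)
  have hody' : od v y' = g := by
    rw [hy', od_mul v (zpow_ne_zero _ hy) (zpow_ne_zero _ hπ0), od_zpow, od_zpow, hπ1, ← h2]
    ring
  obtain ⟨nn, d, hd⟩ := exists_compl v (x := y') (by rw [hody']; exact hg)
  obtain ⟨hd0, hdod⟩ := od_primeCompl v d
  have hd0' : algebraMap (𝓞 K) K d ≠ 0 := by simpa using hd0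
  set s : K := π ^ j * algebraMap (𝓞 K) K d with hs
  have hs0 : s ≠ 0 := mul_ne_zero (zpow_ne_zero _ hπ0) hd0'
  set β' : L := α ^ i * algebraMap K L s with hβ'
  have hβ'0 : β' ≠ 0 := mul_ne_zero (zpow_ne_zero _ hα0) (by simpa using hs0)
  set c : 𝓞 K := nn * (d : 𝓞 K) ^ (ℓ - 1) with hc
  have hcK : algebraMap (𝓞 K) K c = y ^ i * s ^ ℓ := by
    rw [hc, map_mul, ← hd, map_pow, hy', hs, mul_pow, zpow_mul, zpow_natCast]
    have : algebraMap (𝓞 K) K (d : 𝓞 K) ^ ℓ =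
        algebraMap (𝓞 K) K (d : 𝓞 K) * algebraMap (𝓞 K) K (d : 𝓞 K) ^ (ℓ - 1) := by
      rw [← pow_succ', Nat.sub_add_cancel hℓ.one_le]
    rw [this, ← zpow_natCast (π ^ j) ℓ, ← zpow_mul, ← zpow_natCast π ℓ, ← zpow_mul, mul_comm j]
    ring
  have hpow : β' ^ ℓ = algebraMap K L (algebraMap (𝓞 K) K c) := by
    rw [hcK, hβ', mul_pow, map_mul (algebraMap K L) (y ^ i), map_zpow₀,
      map_pow (algebraMap K L) s, ← hα]
    congr 1
    rw [← zpow_natCast, ← zpow_natCast, ← zpow_mul, ← zpow_mul, mul_comm]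
  have hint : IsIntegral ℤ β' := by
    apply IsIntegral.of_pow (n := ℓ) hℓ.pos
    rw [hpow]
    exact (RingOfIntegers.isIntegral_coe c).map
      ((algebraMap K L).toIntAlgHom)
  obtain ⟨β, hβ⟩ : ∃ β : 𝓞 L, algebraMap (𝓞 L) L β = β' := ⟨⟨β', hint⟩, rfl⟩
  have hβpow : β ^ ℓ = algebraMap (𝓞 K) (𝓞 L) c := by
    apply FaithfulSMul.algebraMap_injective (𝓞 L) L
    rw [map_pow, hβ, hpow, ← IsScalarTower.algebraMap_apply, ← IsScalarTower.algebraMap_apply]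
  have hgen : Algebra.adjoin K {algebraMap (𝓞 L) L β} = ⊤ := by
    rw [hβ]
    apply Algebra.adjoin_eq_top_of_intermediateField
    · intro x _
      exact Algebra.IsAlgebraic.isAlgebraic x
    · rw [eq_top_iff, ← had, IntermediateField.adjoin_le_iff, Set.singleton_subset_iff]
      set F := IntermediateField.adjoin K {β'} with hF
      have e1 : β' ∈ F := IntermediateField.mem_adjoin_simple_self K β'
      have e2 : algebraMap K L s ∈ F := F.algebraMap_mem s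
      have e3 : α ^ i ∈ F := by
        have : α ^ i = β' / algebraMap K L s := by
          rw [hβ', mul_div_cancel_right₀]
          simpa using hs0
        rw [this]
        exact div_mem e1 e2
      have e4 : α = (α ^ i) ^ k * (algebraMap K L y) ^ m := by
        rw [← hα, ← zpow_natCast α ℓ, ← zpow_mul, ← zpow_mul, ← zpow_add₀ hα0, h1, zpow_one]
      rw [SetLike.mem_coe, e4]
      exact mul_mem (zpow_mem e3 _) (zpow_mem (F.algebraMap_mem y) _)
  have hβ0 : β ≠ 0 := by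
    rintro rfl
    rw [map_zero] at hβ
    exact hβ'0 hβ.symm
  -- the order of `β`
  have hord : (ℓ : ℤ) * od w (algebraMap (𝓞 L) L β) = ri K w * g := by
    have e1 : od w (algebraMap (𝓞 L) L β ^ ℓ) = ℓ * od w (algebraMap (𝓞 L) L β) := od_pow _ _ _
    rw [← e1, hβ, hpow, od_under, ← hv]
    congr 1
    rw [hc, map_mul, ← hd, map_pow]
    rw [od_mul v (mul_ne_zero hy'0 hd0') (pow_ne_zero _ hd0'), od_mul v hy'0 hd0', od_pow, hdod,
      hody']
    ring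
  refine ⟨β, c, hβ0, hgen, hβpow, fun h => ?_, fun h => ?_⟩
  · rw [h3 h, mul_zero] at hord
    exact (mul_eq_zero.1 hord).resolve_left hℓ0
  · rw [h4 h, mul_one] at hord
    have e1 := ri_pos (K := K) w
    have e2 := ri_le_finrank (K := K) w
    have e3 : ri K w ≤ ℓ := e2.trans hfr
    have e4 : (ℓ : ℤ) * od w (algebraMap (𝓞 L) L β) ≤ ℓ * 1 := by
      rw [hord, mul_one]; exact_mod_cast e3
    have e5 : 0 < (ℓ : ℤ) * od w (algebraMap (𝓞 L) L β) := by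
      rw [hord]; exact_mod_cast e1
    have hℓpos : (0 : ℤ) < ℓ := by exact_mod_cast hℓ.pos
    have e6 := le_of_mul_le_mul_left e4 hℓpos
    have e7 : 0 < od w (algebraMap (𝓞 L) L β) := by
      by_contra hcon
      push Not at hcon
      have := mul_nonpos_of_nonneg_of_nonpos hℓpos.le hcon
      omega
    omega

theorem od_of_mem_pow (w : HeightOneSpectrum (𝓞 L)) {x : 𝓞 L} (hx : x ≠ 0) {n : ℕ}
    (h : x ∈ w.asIdeal ^ n) : (n : ℤ) ≤ od w (algebraMap (𝓞 L) L x) := by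
  have h1 : w.valuation L (algebraMap (𝓞 L) L x) ≤ WithZero.exp (-(n : ℤ)) := by
    rw [HeightOneSpectrum.valuation_of_algebraMap, HeightOneSpectrum.intValuation_le_pow_iff_dvd,
      Ideal.dvd_span_singleton]
    exact h
  have hx' : algebraMap (𝓞 L) L x ≠ 0 := by simpa using hx
  have h2 : w.valuation L (algebraMap (𝓞 L) L x) ≠ 0 := (Valuation.ne_zero_iff _).2 hx'
  have h3 := (WithZero.log_le_log h2 (WithZero.exp_ne_zero)).2 h1
  rw [WithZero.log_exp] at h3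
  unfold od
  omega

theorem different_ge {ℓ : ℕ} (hℓ : ℓ.Prime) (hfr : Module.finrank K L ≤ ℓ) {y : K} (hy : y ≠ 0)
    {α : L} (hα : α ^ ℓ = algebraMap K L y) (had : IntermediateField.adjoin K {α} = ⊤)
    (W : Finset (HeightOneSpectrum (𝓞 L)))
    (hW : ∀ w : HeightOneSpectrum (𝓞 L), ¬ (ℓ : ℤ) ∣ od (w.under (𝓞 K)) y → w ∈ W) :
    Ideal.span {(ℓ : 𝓞 L)} * ∏ w ∈ W, w.asIdeal ^ (ℓ - 1) ≤ differentIdeal (𝓞 K) (𝓞 L) := by
  intro x hx
  rw [Ideal.mem_span_singleton_mul] at hx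
  obtain ⟨x', hx', rfl⟩ := hx
  by_cases hx0 : x' = 0
  · rw [hx0, mul_zero]; exact Ideal.zero_mem _
  by_contra hcon
  set D := differentIdeal (𝓞 K) (𝓞 L) with hD
  let I : Ideal (𝓞 L) := Submodule.comap (LinearMap.toSpanSingleton (𝓞 L) (𝓞 L) (ℓ * x')) D
  have hI : ∀ s, s ∈ I ↔ s * (ℓ * x') ∈ D := fun s => Iff.rfl
  have hItop : I ≠ ⊤ := by
    rw [Ideal.ne_top_iff_one, hI, one_mul]
    exact hcon
  obtain ⟨P, hP, hIP⟩ := Ideal.exists_le_maximal I hItop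
  have hPbot : P ≠ ⊥ := by
    intro h
    rw [h, le_bot_iff] at hIP
    have h1 : D ≠ ⊥ := differentIdeal_ne_bot
    apply h1
    rw [← le_bot_iff, ← hIP]
    intro s hs
    rw [hI]
    exact Ideal.mul_mem_right _ _ hs
  set w : HeightOneSpectrum (𝓞 L) := ⟨P, hP.isPrime, hPbot⟩ with hw
  obtain ⟨β, c, hβ0, hgen, hpow, h0, h1⟩ := good_beta hℓ hfr hy hα had w
  have hder := deriv_mem ℓ β hgen c hpow
  have hβL : algebraMap (𝓞 L) L β ≠ 0 := by simpa using hβ0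
  have hxL : algebraMap (𝓞 L) L x' ≠ 0 := by simpa using hx0
  have hord : ((ℓ - 1 : ℕ) : ℤ) * od w (algebraMap (𝓞 L) L β) ≤ od w (algebraMap (𝓞 L) L x') := by
    by_cases hd : (ℓ : ℤ) ∣ od (w.under (𝓞 K)) y
    · rw [h0 hd, mul_zero]
      exact od_int w x'
    · rw [h1 hd, mul_one]
      have h2 := hW w hd
      apply od_of_mem_pow w hx0
      have h3 : w.asIdeal ^ (ℓ - 1) ∣ ∏ w ∈ W, w.asIdeal ^ (ℓ - 1) :=
        Finset.dvd_prod_of_mem (fun w : HeightOneSpectrum (𝓞 L) => w.asIdeal ^ (ℓ - 1)) h2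
      exact Ideal.le_of_dvd h3 hx'
  obtain ⟨r, d, hd⟩ := exists_compl w
    (x := algebraMap (𝓞 L) L x' / algebraMap (𝓞 L) L β ^ (ℓ - 1)) (by
      rw [od_div w hxL (pow_ne_zero _ hβL), od_pow]
      omega)
  have h2 : x' * (d : 𝓞 L) = β ^ (ℓ - 1) * r := by
    apply FaithfulSMul.algebraMap_injective (𝓞 L) L
    rw [map_mul, map_mul, ← hd, map_pow]
    field_simp
  apply d.2
  apply hIP
  rw [hI]
  have h3 : (d : 𝓞 L) * (ℓ * x') = (ℓ * β ^ (ℓ - 1)) * r := by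
    calc (d : 𝓞 L) * (ℓ * x') = ℓ * (x' * d) := by ring
      _ = ℓ * (β ^ (ℓ - 1) * r) := by rw [h2]
      _ = (ℓ * β ^ (ℓ - 1)) * r := by ring
  rw [h3]
  exact Ideal.mul_mem_right _ _ hder

/-- `log` of the absolute discriminant -/
noncomputable def ldisc (K : Type*) [Field K] [NumberField K] : ℝ := Real.log |(discr K : ℝ)|

theorem ldisc_nonneg : 0 ≤ ldisc K := by
  unfold ldisc
  have h1 := NumberField.discr_ne_zero K
  have h2 : (1 : ℝ) ≤ |(discr K : ℝ)| := by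
    rw [← Int.cast_abs]
    exact_mod_cast Int.one_le_abs h1
  exact Real.log_nonneg h2

theorem disc_le {ℓ : ℕ} (hℓ : ℓ.Prime) (hfr : Module.finrank K L ≤ ℓ) {y : K} (hy : y ≠ 0)
    {α : L} (hα : α ^ ℓ = algebraMap K L y) (had : IntermediateField.adjoin K {α} = ⊤)
    (W : Finset (HeightOneSpectrum (𝓞 L)))
    (hW : ∀ w : HeightOneSpectrum (𝓞 L), ¬ (ℓ : ℤ) ∣ od (w.under (𝓞 K)) y → w ∈ W) :
    ldisc L ≤ Module.finrank K L * ldisc K + Module.finrank ℚ L * Real.log ℓ +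
      (ℓ - 1 : ℕ) * ∑ w ∈ W, nu w := by
  have hdisc := NumberField.natAbs_discr_eq_absNorm_differentIdeal_mul_natAbs_discr_pow K (𝓞 K) L
    (𝓞 L)
  have hdiff0 : Ideal.absNorm (differentIdeal (𝓞 K) (𝓞 L)) ≠ 0 := by
    intro h
    rw [h, zero_mul] at hdisc
    exact NumberField.discr_ne_zero L (Int.natAbs_eq_zero.1 hdisc)
  have s5 : ldisc L = Real.log (Ideal.absNorm (differentIdeal (𝓞 K) (𝓞 L))) +
      Module.finrank K L * ldisc K := by
    have e1 : |(discr L : ℝ)| = ((discr L).natAbs : ℝ) := by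
      rw [← Int.cast_abs, Int.abs_eq_natAbs]
      simp
    have e2 : |(discr K : ℝ)| = ((discr K).natAbs : ℝ) := by
      rw [← Int.cast_abs, Int.abs_eq_natAbs]
      simp
    unfold ldisc
    rw [e1, e2, hdisc]
    push_cast
    rw [Real.log_mul (by exact_mod_cast hdiff0) ?_, Real.log_pow]
    refine pow_ne_zero _ ?_
    have := NumberField.discr_ne_zero K
    exact_mod_cast Int.natAbs_ne_zero.2 this
  have h1 := Ideal.absNorm_dvd_absNorm_of_le (different_ge hℓ hfr hy hα had W hW)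
  have hne : Ideal.absNorm (Ideal.span {(ℓ : 𝓞 L)} * ∏ w ∈ W, w.asIdeal ^ (ℓ - 1)) =
      ℓ ^ Module.finrank ℚ L * ∏ w ∈ W, Ideal.absNorm w.asIdeal ^ (ℓ - 1) := by
    rw [map_mul, Ideal.absNorm_span_natCast, RingOfIntegers.rank, map_prod]
    simp only [map_pow]
  rw [hne] at h1
  have hpos : 0 < ℓ ^ Module.finrank ℚ L * ∏ w ∈ W, Ideal.absNorm w.asIdeal ^ (ℓ - 1) := by
    refine Nat.mul_pos (pow_pos hℓ.pos _) (Finset.prod_pos fun w _ => pow_pos ?_ _)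
    have := two_le_absNorm w
    omega
  have h2 := Nat.le_of_dvd hpos h1
  have h3 : Real.log (Ideal.absNorm (differentIdeal (𝓞 K) (𝓞 L))) ≤
      Module.finrank ℚ L * Real.log ℓ + (ℓ - 1 : ℕ) * ∑ w ∈ W, nu w := by
    have h4 : ((Ideal.absNorm (differentIdeal (𝓞 K) (𝓞 L)) : ℕ) : ℝ) ≤
        (ℓ : ℝ) ^ Module.finrank ℚ L * ∏ w ∈ W, (Ideal.absNorm w.asIdeal : ℝ) ^ (ℓ - 1) := by
      exact_mod_cast h2
    have h5 := Real.log_le_log (by exact_mod_cast Nat.pos_of_ne_zero hdiff0) h4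
    have h6 : ∀ w ∈ W, (Ideal.absNorm w.asIdeal : ℝ) ^ (ℓ - 1) ≠ 0 := by
      intro w _
      have := two_le_absNorm w
      refine pow_ne_zero _ ?_
      exact_mod_cast (by omega : Ideal.absNorm w.asIdeal ≠ 0)
    rw [Real.log_mul (pow_ne_zero _ (by exact_mod_cast hℓ.ne_zero)) (Finset.prod_ne_zero_iff.2 h6),
      Real.log_pow, Real.log_prod h6] at h5
    refine h5.trans (le_of_eq ?_)
    congr 1
    rw [Finset.mul_sum]
    refine Finset.sum_congr rfl fun w _ => ?_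
    rw [Real.log_pow]
    rfl
  rw [s5]
  linarith

end Pool.Agent.N756.UA
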