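import Pool.Agent.N756.UA.Pr

/-! Heights and orders. -/

set_option autoImplicit false

open NumberField IsDedekindDomain Height

namespace Pool.Agent.N756.UA

variable {K : Type*} [Field K] [NumberField K]

theorem log_place (v : HeightOneSpectrum (𝓞 K)) {x : K} (hx : x ≠ 0) :
    Real.log (FinitePlace.mk v x) = - od v x * nu v := by
  have h1 : v.valuation K x ≠ 0 := (Valuation.ne_zero_iff _).2 hx
  have h2 : FinitePlace.mk v x = (WithZeroMulInt.toNNReal
      (NumberField.HeightOneSpectrum.absNorm_ne_zero v) (v.valuation K x) : ℝ) := by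
    rw [FinitePlace.mk_apply, FinitePlace.norm_embedding,
      NumberField.HeightOneSpectrum.adicAbv_def]
  rw [h2, WithZeroMulInt.toNNReal_neg_apply _ h1]
  have h3 : (WithZero.unzero h1).toAdd = WithZero.log (v.valuation K x) := by
    generalize v.valuation K x = z at h1 ⊢
    obtain ⟨a, rfl⟩ := WithZero.ne_zero_iff_exists.1 h1
    rfl
  rw [h3]
  unfold od nu
  push_cast
  rw [Real.log_zpow]
  ring

open Real in
/-- `∑ max (-od v x) 0 * nu v ≤ logHeight₁ x` -/
theorem sum_neg_le {x : K} (hx : x ≠ 0) (Z : Finset (HeightOneSpectrum (𝓞 K))) :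
    ∑ v ∈ Z, (max (- od v x) 0 : ℤ) * nu v ≤ logHeight₁ x := by
  have hterm : ∀ v : HeightOneSpectrum (𝓞 K), log⁺ (FinitePlace.mk v x) =
      (max (- od v x) 0 : ℤ) * nu v := by
    intro v
    have hpl : log⁺ (FinitePlace.mk v x) = max 0 (Real.log (FinitePlace.mk v x)) := rfl
    rw [hpl, log_place v hx]
    have h1 := nu_pos v
    rcases le_total (- od v x) 0 with h | h
    · rw [max_eq_right h]
      have h2 : -(od v x : ℝ) ≤ 0 := by exact_mod_cast h
      rw [max_eq_left]
      · simp
      · nlinarith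
    · rw [max_eq_left h]
      have h2 : (0 : ℝ) ≤ -(od v x : ℝ) := by exact_mod_cast h
      rw [max_eq_right]
      · push_cast; ring
      · positivity
  rw [NumberField.logHeight₁_eq]
  have h1 : (0 : ℝ) ≤ ∑ v : InfinitePlace K, (v.mult : ℝ) * log⁺ (v x) :=
    Finset.sum_nonneg fun v _ => mul_nonneg (Nat.cast_nonneg _) Real.posLog_nonneg
  have h2 : ∑ᶠ v : FinitePlace K, log⁺ (v x) =
      ∑ᶠ v : HeightOneSpectrum (𝓞 K), log⁺ (FinitePlace.mk v x) := by
    rw [← finsum_comp_equiv FinitePlace.equivHeightOneSpectrum.symm]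
    rfl
  have hfin : (Function.support fun v : HeightOneSpectrum (𝓞 K) =>
      log⁺ (FinitePlace.mk v x)).Finite := by
    refine (od_finite hx).subset fun v hv => ?_
    simp only [Function.mem_support] at hv
    intro h0
    apply hv
    rw [hterm, h0]
    simp
  have h3 : ∑ v ∈ Z, (max (- od v x) 0 : ℤ) * nu v ≤
      ∑ᶠ v : HeightOneSpectrum (𝓞 K), log⁺ (FinitePlace.mk v x) := by
    classical
    rw [finsum_eq_sum_of_support_subset _
      (s := Z ∪ hfin.toFinset) (by intro v hv; simp; right; exact hv)]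
    refine le_trans (le_of_eq ?_) (Finset.sum_le_sum_of_subset_of_nonneg
      (Finset.subset_union_left (s₂ := hfin.toFinset)) fun v _ _ => Real.posLog_nonneg)
    exact Finset.sum_congr rfl fun v _ => (hterm v).symm
  rw [h2]
  linarith

/-- `∑ |od v x| * nu v ≤ 2 * logHeight₁ x` -/
theorem sum_abs_le {x : K} (hx : x ≠ 0) (Z : Finset (HeightOneSpectrum (𝓞 K))) :
    ∑ v ∈ Z, (|od v x| : ℤ) * nu v ≤ 2 * logHeight₁ x := by
  have h1 := sum_neg_le hx Z
  have h2 := sum_neg_le (inv_ne_zero hx) Z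
  rw [logHeight₁_inv] at h2
  have h3 : ∑ v ∈ Z, ((|od v x| : ℤ) : ℝ) * nu v =
      ∑ v ∈ Z, ((max (- od v x) 0 : ℤ) : ℝ) * nu v + ∑ v ∈ Z, ((max (- od v x⁻¹) 0 : ℤ) : ℝ) * nu v := by
    rw [← Finset.sum_add_distrib]
    refine Finset.sum_congr rfl fun v _ => ?_
    rw [← add_mul, od_inv, neg_neg]
    congr 1
    rcases le_total (od v x) 0 with h | h
    · rw [abs_of_nonpos h, max_eq_left (by omega), max_eq_right h]
      push_cast; ring
    · rw [abs_of_nonneg h, max_eq_right (by omega), max_eq_left h]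
      push_cast; ring
  rw [h3]
  linarith

end Pool.Agent.N756.UA
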