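import Pool.Agent.N756.UA.Diff

/-! Existence of the Kummer type extension `K(α)`, `α ^ ℓ = y`; the field step. -/

set_option autoImplicit false

open NumberField IsDedekindDomain Polynomial

namespace Pool.Agent.N756.UA

theorem exists_kummer (K : Type) [Field K] [NumberField K] {ℓ : ℕ} (hℓ : ℓ ≠ 0) (y : K) :
    ∃ (L : Type) (_ : Field L) (_ : NumberField L) (_ : Algebra K L) (α : L),
      α ^ ℓ = algebraMap K L y ∧ IntermediateField.adjoin K {α} = ⊤ ∧ Module.finrank K L ≤ ℓ := by
  have hdeg : (X ^ ℓ - C y : K[X]).natDegree = ℓ := natDegree_X_pow_sub_C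
  have hne : (X ^ ℓ - C y : K[X]) ≠ 0 := by
    intro h
    rw [h, natDegree_zero] at hdeg
    exact hℓ hdeg.symm
  have hnu : ¬ IsUnit (X ^ ℓ - C y : K[X]) := by
    intro h
    have := natDegree_eq_zero_of_isUnit h
    rw [hdeg] at this
    exact hℓ this
  obtain ⟨f, hf, hdvd⟩ := WfDvdMonoid.exists_irreducible_factor hnu hne
  have hfact : Fact (Irreducible f) := ⟨hf⟩
  have hf0 : f ≠ 0 := hf.ne_zero
  have hinj : Function.Injective (algebraMap K (AdjoinRoot f)) :=
    FaithfulSMul.algebraMap_injective K (AdjoinRoot f)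
  have hch : CharZero (AdjoinRoot f) := charZero_of_injective_algebraMap hinj
  have hfin : Module.Finite K (AdjoinRoot f) := (AdjoinRoot.powerBasis hf0).finite
  have hfinQ : Module.Finite ℚ (AdjoinRoot f) := Module.Finite.trans K (AdjoinRoot f)
  refine ⟨AdjoinRoot f, inferInstance, ⟨⟩, inferInstance, AdjoinRoot.root f, ?_, ?_, ?_⟩
  · have h1 : aeval (AdjoinRoot.root f) (X ^ ℓ - C y : K[X]) = 0 := by
      obtain ⟨q, hq⟩ := hdvd
      rw [hq, map_mul, AdjoinRoot.aeval_eq, AdjoinRoot.mk_self, zero_mul]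
    simp only [map_sub, map_pow, aeval_X, aeval_C] at h1
    exact sub_eq_zero.1 h1
  · exact IntermediateField.adjoin_eq_top_of_algebra K _ (AdjoinRoot.adjoinRoot_eq_top)
  · rw [(AdjoinRoot.powerBasis hf0).finrank, AdjoinRoot.powerBasis_dim]
    exact (natDegree_le_of_dvd hdvd hne).trans hdeg.le

end Pool.Agent.N756.UA
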