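import Pool.Agent.N756.UA.Rat

/-! Lower bounds for the uniform abc conjecture with conductor close to `1`. -/

set_option autoImplicit false

open NumberField IsDedekindDomain Module Height

namespace Pool.Agent.N756.UA

/-- asymptotic facts about `y / log y` -/
theorem ev_y (T : ℝ) : ∃ y : ℕ, 3 ≤ y ∧ 1000 ≤ Real.log y ∧
    1000 * Real.log y ^ 2 ≤ y ∧ T ≤ Real.log y := by
  have h1 : ∀ᶠ x : ℝ in Filter.atTop, ‖Real.log x ^ 2‖ ≤ (1 / 1000) * ‖id x‖ :=
    (Real.isLittleO_pow_log_id_atTop (n := 2)).bound (by norm_num)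
  have h2 : ∀ᶠ x : ℝ in Filter.atTop, max 1000 T ≤ Real.log x :=
    Real.tendsto_log_atTop.eventually_ge_atTop _
  have h3 : ∀ᶠ x : ℝ in Filter.atTop, (3 : ℝ) ≤ x := Filter.eventually_ge_atTop 3
  have h4 := tendsto_natCast_atTop_atTop (R := ℝ) |>.eventually (h1.and (h2.and h3))
  obtain ⟨y, hy1, hy2, hy3⟩ := h4.exists
  refine ⟨y, by exact_mod_cast hy3, (le_max_left _ _).trans hy2, ?_, (le_max_right _ _).trans hy2⟩
  simp only [Real.norm_eq_abs, id_eq, abs_pow, sq_abs, Nat.abs_cast] at hy1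
  linarith

theorem lower (T : ℝ) : ∃ (K : Type) (_ : Field K) (_ : NumberField K) (a b c : K),
    a ≠ 0 ∧ b ≠ 0 ∧ c ≠ 0 ∧ a + b + c = 0 ∧ T ≤ H a b c ∧
    rd K * Real.exp (√(Real.log (H a b c)) / (40 * Real.log (Real.log (H a b c)))) ≤ H a b c ∧
    Real.log (N a b c) ≤
      Real.exp (-(√(Real.log (H a b c)) / (40 * Real.log (Real.log (H a b c))))) := by
  obtain ⟨y, hy3, hL1, hL2, hLT⟩ := ev_y (max T 1)
  set Y : ℝ := (y : ℝ) with hY
  set Λ := Real.log Y with hΛ
  have hY3 : (3 : ℝ) ≤ Y := by rw [hY]; exact_mod_cast hy3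
  have hY0 : 0 < Y := by linarith
  have hΛ0 : 0 < Λ := by linarith
  set z := Y / Λ with hz
  have hΛΛ : 1000 * Λ * Λ ≤ Y := by
    have : 1000 * Λ * Λ = 1000 * Λ ^ 2 := by ring
    rw [this]; exact hL2
  have hz1 : 1000 * Λ ≤ z := by
    rw [hz, le_div_iff₀ hΛ0]
    exact hΛΛ
  have hΛY : 1000 * Λ ≤ Y := by
    refine le_trans ?_ hΛΛ
    exact le_mul_of_one_le_right (by positivity) (by linarith)
  have hY2 : 3 * Y ≤ Y ^ 2 := by
    rw [sq]
    exact mul_le_mul_of_nonneg_right hY3 hY0.le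
  have hzΛ : z * Λ = Y := by rw [hz]; field_simp
  -- the number of primes
  set r := (oddP y).card with hr
  have hr1 : r + 1 = Nat.primeCounting y := by
    rw [hr, oddP, Finset.card_erase_of_mem, Nat.primesLE_card_eq_primeCounting]
    · have h0 : 0 < (Nat.primesLE y).card := by
        refine Finset.card_pos.2 ⟨2, ?_⟩
        rw [Nat.mem_primesLE]
        exact ⟨by omega, Nat.prime_two⟩
      rw [Nat.primesLE_card_eq_primeCounting] at h0
      omega
    · rw [Nat.mem_primesLE]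
      exact ⟨by omega, Nat.prime_two⟩
  have hr1' : (r : ℝ) + 1 = (Nat.primeCounting y : ℝ) := by exact_mod_cast hr1
  have hlog2 : (0.69 : ℝ) < Real.log 2 := by
    have := Real.log_two_gt_d9; linarith
  have hlog2' : Real.log 2 < (0.7 : ℝ) := by
    have := Real.log_two_lt_d9; linarith
  have hlogY1 : Real.log (Y + 1) ≤ Real.log 2 + Λ := by
    rw [hΛ, ← Real.log_mul (by norm_num) hY0.ne']
    exact Real.log_le_log (by linarith) (by linarith)
  have hr2 : 0.6 * z ≤ r := by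
    have h1 := Chebyshev.pi_ge y
    rw [← hY, ← hΛ, div_le_iff₀ hΛ0, ← hr1'] at h1
    have h2 : Y * 0.69 ≤ Y * Real.log 2 := mul_le_mul_of_nonneg_left hlog2.le hY0.le
    have h3 : 0.6 * z * Λ ≤ r * Λ := by
      have : 0.6 * z * Λ = 0.6 * Y := by rw [mul_assoc, hzΛ]
      rw [this]
      linarith
    exact le_of_mul_le_mul_right h3 hΛ0
  -- the pigeonhole
  set E := 8 * y with hE
  set P := primorial y with hP
  have hP0 : 0 < P := primorial_pos y
  have hP0' : (0 : ℝ) < P := by exact_mod_cast hP0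
  have hr0 : 1 ≤ r := by
    have : (1 : ℝ) ≤ r := by linarith
    exact_mod_cast this
  have hE2 : 2 ≤ E := by omega
  have hEr : 2 ≤ E ^ r := by
    calc 2 ≤ E ^ 1 := by simpa using hE2
      _ ≤ E ^ r := Nat.pow_le_pow_right (by omega) hr0
  set k := Nat.log 2 (E ^ r - 1) with hk
  have hk1 : 2 ^ k < E ^ r := by
    have : 2 ^ k ≤ E ^ r - 1 := Nat.pow_log_le_self 2 (x := E ^ r - 1) (by omega)
    omega
  have hk2 : E ^ r ≤ 2 ^ (k + 1) := by
    have := Nat.lt_pow_succ_log_self (b := 2) (by norm_num) (E ^ r - 1)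
    rw [← hk] at this
    omega
  obtain ⟨a, b, ha, hab, hcop, haP, hbP, hdvd⟩ := exists_cong y E k hk1
  have hb0 : 0 < b := by omega
  have hb0' : (0 : ℝ) < b := by exact_mod_cast hb0
  set h := Real.log b with hh
  have hkE : (r : ℝ) * (Real.log 8 + Λ) ≤ (k + 1) * Real.log 2 := by
    have h1 : ((E ^ r : ℕ) : ℝ) ≤ ((2 ^ (k + 1) : ℕ) : ℝ) := by exact_mod_cast hk2
    push_cast at h1
    have h2 := Real.log_le_log (by positivity) h1
    rw [Real.log_pow, Real.log_pow, hE] at h2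
    push_cast at h2
    rw [Real.log_mul (by norm_num) hY0.ne'] at h2
    exact h2
  have hlog8 : Real.log 8 = 3 * Real.log 2 := by
    rw [show (8 : ℝ) = 2 ^ 3 by norm_num, Real.log_pow]; norm_num
  have hlogP : Real.log P ≤ (r + 1) * Λ := by
    have h1 := Chebyshev.theta_le_pi_mul_log y
    rw [Chebyshev.theta_eq_log_primorial, Nat.floor_natCast, ← hr1'] at h1
    exact h1
  have hlogP' : Real.log P ≤ 1.4 * Y := by
    have h1 := Chebyshev.theta_le_log4_mul_x (x := Y) hY0.le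
    rw [Chebyshev.theta_eq_log_primorial, hY, Nat.floor_natCast] at h1
    have h2 : Real.log 4 = 2 * Real.log 2 := by
      rw [show (4 : ℝ) = 2 ^ 2 by norm_num, Real.log_pow]; norm_num
    rw [h2] at h1
    have h3 : Real.log 2 * Y ≤ 0.7 * Y := mul_le_mul_of_nonneg_right hlog2'.le hY0.le
    linarith
  -- upper and lower bounds for `h`
  have hh1 : h ≤ 12 * Y ^ 2 := by
    have h1 : (b : ℝ) ≤ (P : ℝ) ^ E := by
      have := Nat.le_of_dvd (pow_pos hP0 E) hbP
      exact_mod_cast this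
    have h2 := Real.log_le_log hb0' h1
    rw [Real.log_pow, hE] at h2
    push_cast at h2
    have h3 : 8 * Y * Real.log P ≤ 8 * Y * (1.4 * Y) :=
      mul_le_mul_of_nonneg_left hlogP' (by positivity)
    have h4 : 8 * Y * (1.4 * Y) ≤ 12 * Y ^ 2 := by
      have : 0 ≤ Y ^ 2 := sq_nonneg Y
      have h5 : 8 * Y * (1.4 * Y) = 11.2 * Y ^ 2 := by ring
      linarith
    exact h2.trans (h3.trans h4)
  have hh2 : (k : ℝ) * Real.log 2 ≤ h := by
    have h1 : 2 ^ k ≤ b := (Nat.le_of_dvd (by omega) hdvd).trans (Nat.sub_le _ _)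
    have h2 : ((2 : ℝ)) ^ k ≤ b := by exact_mod_cast h1
    have h3 := Real.log_le_log (by positivity) h2
    rwa [Real.log_pow] at h3
  have hh3 : 0.5 * Y ≤ h := by
    have h1 : 0.6 * z * Λ ≤ r * Λ := mul_le_mul_of_nonneg_right hr2 hΛ0.le
    have h2 : 0.6 * z * Λ = 0.6 * Y := by rw [mul_assoc, hzΛ]
    have h3 : 0 ≤ (r : ℝ) * Real.log 8 := by positivity
    linarith
  have hhpos : 0 < h := by linarith
  -- the rational triple
  have hQH := rat_height ha hab hcop
  have hQN := rat_cond (E := E) ha hab hP0 haP hbP hdvd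
  rw [← hh] at hQH hQN
  have ha' : (a : ℚ) ≠ 0 := by exact_mod_cast ha.ne'
  have hb' : -(b : ℚ) ≠ 0 := neg_ne_zero.2 (by exact_mod_cast (by omega : b ≠ 0))
  have hc' : ((b - a : ℕ) : ℚ) ≠ 0 := by exact_mod_cast (by omega : b - a ≠ 0)
  have hsum : (a : ℚ) + ((b - a : ℕ) : ℚ) + -(b : ℚ) = 0 := by
    rw [Nat.cast_sub hab.le]; ring
  have hN1 : Real.log (N (a : ℚ) ((b - a : ℕ) : ℚ) (-(b : ℚ))) ≤ h - 1.242 * z + Λ + 1.4 := by
    rw [Real.log_mul (by norm_num) hP0'.ne'] at hQN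
    have e1 : 1.242 * z ≤ r * Real.log 8 := by
      rw [hlog8]
      have e2 : 0.6 * z * 0.69 ≤ r * Real.log 2 :=
        mul_le_mul hr2 hlog2.le (by norm_num) (Nat.cast_nonneg r)
      linarith
    linarith
  -- the auxiliary prime
  set φ := 0.1 * z with hφ
  have hφ0 : 0 ≤ φ := by positivity
  have hE1 : 1 ≤ Real.exp φ := Real.one_le_exp hφ0
  have hE0 : 0 < Real.exp φ := Real.exp_pos _
  set x : ℝ := (8 * h + 1) * Real.exp φ with hx
  have hx1 : 1 ≤ x := one_le_mul_of_one_le_of_one_le (by linarith) hE1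
  set M : ℕ := ⌈x⌉₊ with hM
  have hM0 : M ≠ 0 := by
    rw [hM, Ne, Nat.ceil_eq_zero]
    linarith
  obtain ⟨ℓ, hℓ, g1, g2⟩ := Nat.exists_prime_lt_and_le_two_mul M hM0
  have hℓ0 : (0 : ℝ) < ℓ := by exact_mod_cast hℓ.pos
  have g3 : x ≤ ℓ := by
    refine (Nat.le_ceil _).trans ?_
    exact_mod_cast g1.le
  have g5 : Real.log ℓ ≤ Real.log 4 + Real.log (8 * h + 1) + φ := by
    have e1 : (ℓ : ℝ) ≤ 2 * M := by exact_mod_cast g2
    have e3 := Nat.ceil_lt_add_one (by linarith : 0 ≤ x)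
    have e4 : (ℓ : ℝ) ≤ 4 * x := by
      have : (M : ℝ) ≤ x + 1 := e3.le
      linarith
    have e5 := Real.log_le_log hℓ0 e4
    rw [hx, Real.log_mul (by norm_num) (by positivity), Real.log_mul (by positivity) hE0.ne',
      Real.log_exp] at e5
    linarith
  have g6 : Real.log (8 * h + 1) ≤ 7 * 0.7 + 2 * Λ := by
    have e1 : 8 * h + 1 ≤ 2 ^ 7 * Y ^ 2 := by linarith
    have e2 := Real.log_le_log (by positivity) e1
    rw [Real.log_mul (by positivity) (by positivity), Real.log_pow, Real.log_pow] at e2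
    push_cast at e2
    linarith
  have hlog4 : Real.log 4 ≤ 1.4 := by
    rw [show (4 : ℝ) = 2 ^ 2 by norm_num, Real.log_pow]
    push_cast; linarith
  obtain ⟨L, _, _, u, v, w, hu, hv, hw, huvw, f1, f2, f3⟩ := cover ℚ ha' hc' hb' hsum hℓ
  rw [hQH] at f1 f3
  have hrdQ : Real.log (rd ℚ) = 0 := by
    unfold rd
    rw [NumberField.discr_rat]
    simp
  have f4 : Real.log (H (u ^ ℓ) (v ^ ℓ) (w ^ ℓ)) = h := by
    rw [H_pow, Real.log_pow]; exact f1
  -- the gauge
  have hg : √h / (40 * Real.log h) ≤ φ := by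
    have e1 : √h ≤ 3.5 * Y := by
      rw [Real.sqrt_le_left (by positivity)]
      have e0 : (3.5 * Y) ^ 2 = 12.25 * Y ^ 2 := by ring
      rw [e0]
      linarith
    have e2 : 0.9 * Λ ≤ Real.log h := by
      have e3 : Real.log (0.5 * Y) ≤ Real.log h := Real.log_le_log (by positivity) hh3
      rw [Real.log_mul (by norm_num) hY0.ne', show (0.5 : ℝ) = 2⁻¹ by norm_num, Real.log_inv] at e3
      linarith
    have e3 : 0 < Real.log h := lt_of_lt_of_le (by positivity) e2
    rw [div_le_iff₀ (by positivity), hφ]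
    have e4 : z * (0.9 * Λ) ≤ z * Real.log h := mul_le_mul_of_nonneg_left e2 (by positivity)
    have e5 : z * (0.9 * Λ) = 0.9 * Y := by rw [← hzΛ]; ring
    linarith
  refine ⟨L, inferInstance, inferInstance, u ^ ℓ, v ^ ℓ, w ^ ℓ, pow_ne_zero _ hu,
    pow_ne_zero _ hv, pow_ne_zero _ hw, huvw, ?_, ?_, ?_⟩
  · have e1 : Real.exp h = H (u ^ ℓ) (v ^ ℓ) (w ^ ℓ) := by
      rw [← f4, Real.exp_log (H_pos _ _ _)]
    rw [← e1]
    have e2 := Real.add_one_le_exp h
    have e3 : T ≤ Λ := (le_max_left T 1).trans hLT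
    linarith
  · rw [f4]
    have hrd : 0 < rd L := rd_pos
    rw [← Real.log_le_log_iff (mul_pos hrd (Real.exp_pos _)) (H_pos _ _ _), f4,
      Real.log_mul hrd.ne' (Real.exp_pos _).ne', Real.log_exp]
    linarith
  · rw [f4, N_pow hu hv hw hℓ.ne_zero]
    have e1 : Real.log (N u v w) ≤ Real.exp (-φ) := by
      rw [Real.exp_neg]
      refine le_of_mul_le_mul_left (a := (ℓ : ℝ)) ?_ hℓ0
      refine f3.trans ?_
      rw [← div_eq_mul_inv, le_div_iff₀ hE0]
      refine le_trans ?_ g3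
      rw [hx]
      exact mul_le_mul_of_nonneg_right (by linarith) hE0.le
    refine e1.trans (Real.exp_le_exp.2 ?_)
    linarith

end Pool.Agent.N756.UA
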