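import Pool.Agent.N756.UA.Weak

/-! Lower bounds for the constant of the weak abc conjecture. -/

set_option autoImplicit false

open NumberField IsDedekindDomain Module Height

namespace Pool.Agent.N756.UA

/-- the triples of Stewart and Tijdeman, with an auxiliary prime -/
theorem params (T : ℝ) : ∃ (a b ℓ : ℕ) (Y Λ z : ℝ), 0 < a ∧ a < b ∧ ℓ.Prime ∧ 1000 ≤ Λ ∧
    1000 * Λ ≤ z ∧ T ≤ Λ ∧ z * Λ = Y ∧ Λ = Real.log Y ∧ 0 < Y ∧
    0.5 * Y ≤ Real.log b ∧ Real.log b ≤ 12 * Y ^ 2 ∧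
    Real.log (H (a : ℚ) ((b - a : ℕ) : ℚ) (-(b : ℚ))) = Real.log b ∧
    Real.log (N (a : ℚ) ((b - a : ℕ) : ℚ) (-(b : ℚ))) ≤ Real.log b - 1.242 * z + Λ + 1.4 ∧
    (8 * Real.log b + 1) * Real.exp (0.1 * z) ≤ ℓ ∧ Real.log ℓ ≤ 6.3 + 2 * Λ + 0.1 * z ∧
    logHeight₁ ((a : ℚ) / b) = Real.log b := by
  obtain ⟨y, hy3, hL1, hL2, hLT⟩ := ev_y (max T 1)
  set Y : ℝ := (y : ℝ) with hY
  set Λ := Real.log Y with hΛ
  have hY3 : (3 : ℝ) ≤ Y := by rw [hY]; exact_mod_cast hy3
  have hY0 : 0 < Y := by linarith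
  have hΛ0 : 0 < Λ := by linarith
  set z := Y / Λ with hz
  have hΛΛ : 1000 * Λ * Λ ≤ Y := by
    have : 1000 * Λ * Λ = 1000 * Λ ^ 2 := by ring
    rw [this]; exact hL2
  have hz1 : 1000 * Λ ≤ z := by
    rw [hz, le_div_iff₀ hΛ0]
    exact hΛΛ
  have hΛY : 1000 * Λ ≤ Y := by
    refine le_trans ?_ hΛΛ
    exact le_mul_of_one_le_right (by positivity) (by linarith)
  have hY2 : 3 * Y ≤ Y ^ 2 := by
    rw [sq]
    exact mul_le_mul_of_nonneg_right hY3 hY0.le
  have hzΛ : z * Λ = Y := by rw [hz]; field_simp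
  -- the number of primes
  set r := (oddP y).card with hr
  have hr1 : r + 1 = Nat.primeCounting y := by
    rw [hr, oddP, Finset.card_erase_of_mem, Nat.primesLE_card_eq_primeCounting]
    · have h0 : 0 < (Nat.primesLE y).card := by
        refine Finset.card_pos.2 ⟨2, ?_⟩
        rw [Nat.mem_primesLE]
        exact ⟨by omega, Nat.prime_two⟩
      rw [Nat.primesLE_card_eq_primeCounting] at h0
      omega
    · rw [Nat.mem_primesLE]
      exact ⟨by omega, Nat.prime_two⟩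
  have hr1' : (r : ℝ) + 1 = (Nat.primeCounting y : ℝ) := by exact_mod_cast hr1
  have hlog2 : (0.69 : ℝ) < Real.log 2 := by
    have := Real.log_two_gt_d9; linarith
  have hlog2' : Real.log 2 < (0.7 : ℝ) := by
    have := Real.log_two_lt_d9; linarith
  have hlogY1 : Real.log (Y + 1) ≤ Real.log 2 + Λ := by
    rw [hΛ, ← Real.log_mul (by norm_num) hY0.ne']
    exact Real.log_le_log (by linarith) (by linarith)
  have hr2 : 0.6 * z ≤ r := by
    have h1 := Chebyshev.pi_ge y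
    rw [← hY, ← hΛ, div_le_iff₀ hΛ0, ← hr1'] at h1
    have h2 : Y * 0.69 ≤ Y * Real.log 2 := mul_le_mul_of_nonneg_left hlog2.le hY0.le
    have h3 : 0.6 * z * Λ ≤ r * Λ := by
      have : 0.6 * z * Λ = 0.6 * Y := by rw [mul_assoc, hzΛ]
      rw [this]
      linarith
    exact le_of_mul_le_mul_right h3 hΛ0
  -- the pigeonhole
  set E := 8 * y with hE
  set P := primorial y with hP
  have hP0 : 0 < P := primorial_pos y
  have hP0' : (0 : ℝ) < P := by exact_mod_cast hP0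
  have hr0 : 1 ≤ r := by
    have : (1 : ℝ) ≤ r := by linarith
    exact_mod_cast this
  have hE2 : 2 ≤ E := by omega
  have hEr : 2 ≤ E ^ r := by
    calc 2 ≤ E ^ 1 := by simpa using hE2
      _ ≤ E ^ r := Nat.pow_le_pow_right (by omega) hr0
  set k := Nat.log 2 (E ^ r - 1) with hk
  have hk1 : 2 ^ k < E ^ r := by
    have : 2 ^ k ≤ E ^ r - 1 := Nat.pow_log_le_self 2 (x := E ^ r - 1) (by omega)
    omega
  have hk2 : E ^ r ≤ 2 ^ (k + 1) := by
    have := Nat.lt_pow_succ_log_self (b := 2) (by norm_num) (E ^ r - 1)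
    rw [← hk] at this
    omega
  obtain ⟨a, b, ha, hab, hcop, haP, hbP, hdvd⟩ := exists_cong y E k hk1
  have hb0 : 0 < b := by omega
  have hb0' : (0 : ℝ) < b := by exact_mod_cast hb0
  set h := Real.log b with hh
  have hkE : (r : ℝ) * (Real.log 8 + Λ) ≤ (k + 1) * Real.log 2 := by
    have h1 : ((E ^ r : ℕ) : ℝ) ≤ ((2 ^ (k + 1) : ℕ) : ℝ) := by exact_mod_cast hk2
    push_cast at h1
    have h2 := Real.log_le_log (by positivity) h1
    rw [Real.log_pow, Real.log_pow, hE] at h2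
    push_cast at h2
    rw [Real.log_mul (by norm_num) hY0.ne'] at h2
    exact h2
  have hlog8 : Real.log 8 = 3 * Real.log 2 := by
    rw [show (8 : ℝ) = 2 ^ 3 by norm_num, Real.log_pow]; norm_num
  have hlogP : Real.log P ≤ (r + 1) * Λ := by
    have h1 := Chebyshev.theta_le_pi_mul_log y
    rw [Chebyshev.theta_eq_log_primorial, Nat.floor_natCast, ← hr1'] at h1
    exact h1
  have hlogP' : Real.log P ≤ 1.4 * Y := by
    have h1 := Chebyshev.theta_le_log4_mul_x (x := Y) hY0.le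
    rw [Chebyshev.theta_eq_log_primorial, hY, Nat.floor_natCast] at h1
    have h2 : Real.log 4 = 2 * Real.log 2 := by
      rw [show (4 : ℝ) = 2 ^ 2 by norm_num, Real.log_pow]; norm_num
    rw [h2] at h1
    have h3 : Real.log 2 * Y ≤ 0.7 * Y := mul_le_mul_of_nonneg_right hlog2'.le hY0.le
    linarith
  -- upper and lower bounds for `h`
  have hh1 : h ≤ 12 * Y ^ 2 := by
    have h1 : (b : ℝ) ≤ (P : ℝ) ^ E := by
      have := Nat.le_of_dvd (pow_pos hP0 E) hbP
      exact_mod_cast this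
    have h2 := Real.log_le_log hb0' h1
    rw [Real.log_pow, hE] at h2
    push_cast at h2
    have h3 : 8 * Y * Real.log P ≤ 8 * Y * (1.4 * Y) :=
      mul_le_mul_of_nonneg_left hlogP' (by positivity)
    have h4 : 8 * Y * (1.4 * Y) ≤ 12 * Y ^ 2 := by
      have : 0 ≤ Y ^ 2 := sq_nonneg Y
      have h5 : 8 * Y * (1.4 * Y) = 11.2 * Y ^ 2 := by ring
      linarith
    exact h2.trans (h3.trans h4)
  have hh2 : (k : ℝ) * Real.log 2 ≤ h := by
    have h1 : 2 ^ k ≤ b := (Nat.le_of_dvd (by omega) hdvd).trans (Nat.sub_le _ _)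
    have h2 : ((2 : ℝ)) ^ k ≤ b := by exact_mod_cast h1
    have h3 := Real.log_le_log (by positivity) h2
    rwa [Real.log_pow] at h3
  have hh3 : 0.5 * Y ≤ h := by
    have h1 : 0.6 * z * Λ ≤ r * Λ := mul_le_mul_of_nonneg_right hr2 hΛ0.le
    have h2 : 0.6 * z * Λ = 0.6 * Y := by rw [mul_assoc, hzΛ]
    have h3 : 0 ≤ (r : ℝ) * Real.log 8 := by positivity
    linarith
  have hhpos : 0 < h := by linarith
  -- the rational triple
  have hQH := rat_height ha hab hcop
  have hQN := rat_cond (E := E) ha hab hP0 haP hbP hdvd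
  rw [← hh] at hQH hQN
  have ha' : (a : ℚ) ≠ 0 := by exact_mod_cast ha.ne'
  have hb' : -(b : ℚ) ≠ 0 := neg_ne_zero.2 (by exact_mod_cast (by omega : b ≠ 0))
  have hc' : ((b - a : ℕ) : ℚ) ≠ 0 := by exact_mod_cast (by omega : b - a ≠ 0)
  have hsum : (a : ℚ) + ((b - a : ℕ) : ℚ) + -(b : ℚ) = 0 := by
    rw [Nat.cast_sub hab.le]; ring
  have hN1 : Real.log (N (a : ℚ) ((b - a : ℕ) : ℚ) (-(b : ℚ))) ≤ h - 1.242 * z + Λ + 1.4 := by
    rw [Real.log_mul (by norm_num) hP0'.ne'] at hQN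
    have e1 : 1.242 * z ≤ r * Real.log 8 := by
      rw [hlog8]
      have e2 : 0.6 * z * 0.69 ≤ r * Real.log 2 :=
        mul_le_mul hr2 hlog2.le (by norm_num) (Nat.cast_nonneg r)
      linarith
    linarith
  set φ := 0.1 * z with hφ
  have hφ0 : 0 ≤ φ := by positivity
  have hE1 : 1 ≤ Real.exp φ := Real.one_le_exp hφ0
  have hE0 : 0 < Real.exp φ := Real.exp_pos _
  set x : ℝ := (8 * h + 1) * Real.exp φ with hx
  have hx1 : 1 ≤ x := one_le_mul_of_one_le_of_one_le (by linarith) hE1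
  set M : ℕ := ⌈x⌉₊ with hM
  have hM0 : M ≠ 0 := by
    rw [hM, Ne, Nat.ceil_eq_zero]
    linarith
  obtain ⟨ℓ, hℓ, g1, g2⟩ := Nat.exists_prime_lt_and_le_two_mul M hM0
  have hℓ0 : (0 : ℝ) < ℓ := by exact_mod_cast hℓ.pos
  have g3 : x ≤ ℓ := by
    refine (Nat.le_ceil _).trans ?_
    exact_mod_cast g1.le
  have g5 : Real.log ℓ ≤ Real.log 4 + Real.log (8 * h + 1) + φ := by
    have e1 : (ℓ : ℝ) ≤ 2 * M := by exact_mod_cast g2
    have e3 := Nat.ceil_lt_add_one (by linarith : 0 ≤ x)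
    have e4 : (ℓ : ℝ) ≤ 4 * x := by
      have : (M : ℝ) ≤ x + 1 := e3.le
      linarith
    have e5 := Real.log_le_log hℓ0 e4
    rw [hx, Real.log_mul (by norm_num) (by positivity), Real.log_mul (by positivity) hE0.ne',
      Real.log_exp] at e5
    linarith
  have g6 : Real.log (8 * h + 1) ≤ 7 * 0.7 + 2 * Λ := by
    have e1 : 8 * h + 1 ≤ 2 ^ 7 * Y ^ 2 := by linarith
    have e2 := Real.log_le_log (by positivity) e1
    rw [Real.log_mul (by positivity) (by positivity), Real.log_pow, Real.log_pow] at e2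
    push_cast at e2
    linarith
  have hlog4 : Real.log 4 ≤ 1.4 := by
    rw [show (4 : ℝ) = 2 ^ 2 by norm_num, Real.log_pow]
    push_cast; linarith
  refine ⟨a, b, ℓ, Y, Λ, z, ha, hab, hℓ, hL1, hz1, (le_max_left T 1).trans hLT, hzΛ, rfl, hY0, hh3,
    hh1, hQH, hN1, g3, by linarith, ?_⟩
  rw [logHeight₁_div_eq_logHeight]
  have h1 : (![(a : ℚ), (b : ℚ)] : Fin 2 → ℚ) = ((↑) : ℤ → ℚ) ∘ ![(a : ℤ), (b : ℤ)] := by
    funext i
    fin_cases i <;> simp
  have hgcd : Finset.univ.gcd (![(a : ℤ), (b : ℤ)] : Fin 2 → ℤ) = 1 := by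
    set f : Fin 2 → ℤ := ![(a : ℤ), (b : ℤ)] with hf
    have g1 : Finset.univ.gcd f ∣ (a : ℤ) := Finset.gcd_dvd (f := f) (Finset.mem_univ (0 : Fin 2))
    have g2 : Finset.univ.gcd f ∣ (b : ℤ) := Finset.gcd_dvd (f := f) (Finset.mem_univ (1 : Fin 2))
    have g3 : IsCoprime (a : ℤ) (b : ℤ) := Nat.isCoprime_iff_coprime.2 hcop
    have g4 : IsUnit (Finset.univ.gcd f) := g3.isUnit_of_dvd' g1 g2
    rw [← Finset.normalize_gcd (s := Finset.univ) (f := f)]
    exact normalize_eq_one.2 g4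
  rw [h1, Rat.logHeight_eq_max_abs_of_gcd_eq_one hgcd]
  congr 1
  have h2 : (⨆ i, |(![(a : ℤ), (b : ℤ)] : Fin 2 → ℤ) i|) = (b : ℤ) := by
    refine le_antisymm (ciSup_le fun i => ?_) ?_
    · fin_cases i
      · show |(a : ℤ)| ≤ b
        rw [Nat.abs_cast]; exact_mod_cast hab.le
      · show |(b : ℤ)| ≤ b
        rw [Nat.abs_cast]
    · refine Finite.le_ciSup_of_le (1 : Fin 2) ?_
      show (b : ℤ) ≤ |(b : ℤ)|
      rw [Nat.abs_cast]
  rw [h2]
  simp

theorem ht_ext {K L : Type*} [Field K] [NumberField K] [Field L] [NumberField L] [Algebra K L]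
    (x : K) : ht (algebraMap K L x) = ht x := by
  unfold ht
  rw [logHeight₁_eq_logHeight, logHeight₁_eq_logHeight]
  have h1 : (![algebraMap K L x, 1] : Fin 2 → L) =
      fun i => algebraMap K L ((![x, 1] : Fin 2 → K) i) := by
    funext i
    fin_cases i <;> simp
  have hn : finrank ℚ K * finrank K L = finrank ℚ L := Module.finrank_mul_finrank ℚ K L
  have hn' : (finrank ℚ K : ℝ) * finrank K L = finrank ℚ L := by exact_mod_cast hn
  have hKL : (0 : ℝ) < finrank K L := by exact_mod_cast finrank_pos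
  rw [h1, Pool.Agent.Helper259.HtExt.logHeight_ext, ← hn']
  have hK : (0 : ℝ) < finrank ℚ K := fr_pos
  field_simp

theorem weak_lower (T : ℝ) : ∃ (q : ℚ) (K : Type) (_ : Field K) (_ : NumberField K),
    T ≤ ht (q : K) ∧ (q : K) ≠ 0 ∧ (q : K) ≠ 1 ∧
    (Real.log (rd K) + √(ht (q : K)) / (40 * Real.log (ht (q : K)))) *
      (cond (q : K) + cond (q : K)⁻¹ + cond ((q : K) - 1) + 1) ≤ ht (q : K) := by
  obtain ⟨a, b, ℓ, Y, Λ, z, ha, hab, hℓ, hΛ1, hz1, hT, hzΛ, hΛ, hY0, hh3, hh1, hQH, hN1, hℓ1, hℓ2,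
    hht⟩ := params T
  have ha' : (a : ℚ) ≠ 0 := by exact_mod_cast ha.ne'
  have hb0 : (b : ℚ) ≠ 0 := by exact_mod_cast (by omega : b ≠ 0)
  have hb' : -(b : ℚ) ≠ 0 := neg_ne_zero.2 hb0
  have hc' : ((b - a : ℕ) : ℚ) ≠ 0 := by exact_mod_cast (by omega : b - a ≠ 0)
  obtain ⟨L, _, _, _, f2, f3⟩ := cover_ext ℚ ha' hc' hb' hℓ
  set h := Real.log b with hh
  rw [hQH] at f3
  have hrdQ : Real.log (rd ℚ) = 0 := by
    unfold rd
    rw [NumberField.discr_rat]
    simp
  have hq : ((((a : ℚ) / b : ℚ)) : L) = (a : L) / b := by push_cast; rfl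
  have haL : (a : L) ≠ 0 := by exact_mod_cast ha.ne'
  have hbL : (b : L) ≠ 0 := by exact_mod_cast (by omega : b ≠ 0)
  have hcL : (b : L) - a ≠ 0 := by
    rw [← Nat.cast_sub hab.le]
    exact_mod_cast (by omega : b - a ≠ 0)
  have hΛ0 : 0 < Λ := by linarith
  have hz0 : 0 < z := by linarith
  have hhpos : 0 < h := by linarith
  have hht' : ht ((a : L) / b) = h := by
    have h1 : ((a : L) / b) = algebraMap ℚ L ((a : ℚ) / b) := by
      rw [map_div₀, map_natCast, map_natCast]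
    rw [h1, ht_ext]
    unfold ht
    rw [hht]
    simp
  have hcond := cond_sum_le haL hbL hcL
  have hNL : N (a : L) ((b : L) - a) (-(b : L)) =
      N (algebraMap ℚ L a) (algebraMap ℚ L ((b - a : ℕ) : ℚ)) (algebraMap ℚ L (-(b : ℚ))) := by
    rw [map_natCast, map_natCast, map_neg, map_natCast, Nat.cast_sub hab.le]
  set S := cond ((a : L) / b) + cond ((a : L) / b)⁻¹ + cond ((a : L) / b - 1) with hS
  have hℓ0 : (0 : ℝ) < ℓ := by exact_mod_cast hℓ.pos
  have hE0 : 0 < Real.exp (0.1 * z) := Real.exp_pos _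
  have hS1 : S * Real.exp (0.1 * z) ≤ 1 := by
    rw [← hNL] at f3
    have e1 : ℓ * S ≤ 8 * h := (mul_le_mul_of_nonneg_left hcond hℓ0.le).trans f3
    have e2 : 8 * h * Real.exp (0.1 * z) ≤ ℓ := by
      refine le_trans ?_ hℓ1
      exact mul_le_mul_of_nonneg_right (by linarith) hE0.le
    refine le_of_mul_le_mul_left (a := (ℓ : ℝ)) ?_ hℓ0
    calc (ℓ : ℝ) * (S * Real.exp (0.1 * z)) = (ℓ * S) * Real.exp (0.1 * z) := by ring
      _ ≤ 8 * h * Real.exp (0.1 * z) := mul_le_mul_of_nonneg_right e1 hE0.le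
      _ ≤ ℓ * 1 := by rw [mul_one]; exact e2
  have hS0 : 0 ≤ S := by
    have k1 : ∀ x : L, 0 ≤ cond x := by
      intro x
      unfold cond
      refine div_nonneg (finsum_nonneg fun v => ?_) (Nat.cast_nonneg _)
      split_ifs
      · exact Real.log_natCast_nonneg _
      · exact le_rfl
    have := k1 ((a : L) / b)
    have := k1 ((a : L) / b)⁻¹
    have := k1 ((a : L) / b - 1)
    linarith
  -- `h * S ≤ 1`
  have hhS : h * S ≤ 12 := by
    have e1 : Y ^ 2 ≤ Real.exp (0.1 * z) := by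
      have : Y ^ 2 = Real.exp (2 * Λ) := by
        rw [hΛ, two_mul, Real.exp_add, Real.exp_log hY0, sq]
      rw [this]
      exact Real.exp_le_exp.2 (by linarith)
    calc h * S ≤ 12 * Y ^ 2 * S := mul_le_mul_of_nonneg_right hh1 hS0
      _ ≤ 12 * Real.exp (0.1 * z) * S := by
        refine mul_le_mul_of_nonneg_right ?_ hS0
        linarith
      _ = 12 * (S * Real.exp (0.1 * z)) := by ring
      _ ≤ 12 := by linarith
  -- the gauge
  have hlogh : 0.9 * Λ ≤ Real.log h := by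
    have e3 : Real.log (0.5 * Y) ≤ Real.log h := Real.log_le_log (by positivity) hh3
    rw [Real.log_mul (by norm_num) hY0.ne', show (0.5 : ℝ) = 2⁻¹ by norm_num, Real.log_inv,
      ← hΛ] at e3
    have := Real.log_two_lt_d9
    linarith
  have hlogh0 : 0 < Real.log h := lt_of_lt_of_le (by positivity) hlogh
  have hg0 : 0 ≤ √h / (40 * Real.log h) := by positivity
  have hg : √h / (40 * Real.log h) ≤ 0.1 * z := by
    have e1 : √h ≤ 3.5 * Y := by
      rw [Real.sqrt_le_left (by positivity)]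
      have e0 : (3.5 * Y) ^ 2 = 12.25 * Y ^ 2 := by ring
      have : 0 ≤ Y ^ 2 := sq_nonneg Y
      rw [e0]
      linarith
    rw [div_le_iff₀ (by positivity)]
    have e4 : z * (0.9 * Λ) ≤ z * Real.log h := mul_le_mul_of_nonneg_left hlogh (by positivity)
    have e5 : z * (0.9 * Λ) = 0.9 * Y := by rw [← hzΛ]; ring
    linarith
  refine ⟨(a : ℚ) / b, L, inferInstance, inferInstance, ?_, ?_, ?_, ?_⟩
  · rw [hq, hht']
    have : Λ ≤ Y / 1000000 := by
      rw [← hzΛ]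
      have : 1000000 * Λ ≤ z * Λ := by
        refine mul_le_mul_of_nonneg_right ?_ hΛ0.le
        linarith
      linarith
    linarith
  · rw [hq]; exact div_ne_zero haL hbL
  · rw [hq]
    intro h1
    rw [div_eq_one_iff_eq hbL] at h1
    exact hcL (by rw [h1, sub_self])
  · rw [hq, hht', ← hS]
    set g := √h / (40 * Real.log h) with hgdef
    have k1 : 0 ≤ Real.log (rd L) := log_rd_nonneg
    have k2 : Real.log (rd L) + g ≤ h - 0.9 * z := by linarith
    have k3 : (Real.log (rd L) + g) * S ≤ h * S :=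
      mul_le_mul_of_nonneg_right (by linarith) hS0
    calc (Real.log (rd L) + g) * (S + 1) = (Real.log (rd L) + g) * S + (Real.log (rd L) + g) := by
          ring
      _ ≤ 12 + (h - 0.9 * z) := by linarith
      _ ≤ h := by linarith

end Pool.Agent.N756.UA
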