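import Pool.Agent.N756.UA.Step
import Pool.Agent.Helper259.HtExt

/-! The uniform abc conjecture and points of small height on Fermat curves. -/

set_option autoImplicit false

open NumberField IsDedekindDomain Module Height

namespace Pool.Agent.N756.UA

section defs

variable {K : Type*} [Field K] [NumberField K]

/-- the height `H(a, b, c)` -/
noncomputable def H (a b c : K) : ℝ := mulHeight ![a, b, c] ^ (1 / (finrank ℚ K : ℝ))

open Classical in
/-- the conductor `N(a, b, c)` -/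
noncomputable def N (a b c : K) : ℝ :=
  (∏ᶠ v : HeightOneSpectrum (𝓞 K),
    if v.valuation K a = v.valuation K b ∧ v.valuation K b = v.valuation K c then (1 : ℝ)
    else (Ideal.absNorm v.asIdeal : ℝ)) ^ (1 / (finrank ℚ K : ℝ))

/-- the root discriminant -/
noncomputable def rd (K : Type*) [Field K] [NumberField K] : ℝ :=
  |(discr K : ℝ)| ^ (1 / (finrank ℚ K : ℝ))

theorem fr_pos : (0 : ℝ) < finrank ℚ K := by exact_mod_cast finrank_pos

theorem H_pos (a b c : K) : 0 < H a b c := Real.rpow_pos_of_pos (mulHeight_pos _) _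

theorem log_H (a b c : K) : Real.log (H a b c) = logHeight ![a, b, c] / finrank ℚ K := by
  unfold H
  rw [Real.log_rpow (mulHeight_pos _), ← logHeight_eq_log_mulHeight]
  ring

theorem discr_abs_pos : 0 < |(discr K : ℝ)| := by
  have := NumberField.discr_ne_zero K
  positivity

theorem rd_pos : 0 < rd K := Real.rpow_pos_of_pos discr_abs_pos _

theorem log_rd : Real.log (rd K) = ldisc K / finrank ℚ K := by
  unfold rd ldisc
  rw [Real.log_rpow discr_abs_pos]
  ring

/-- the primes of the conductor -/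
def cS (a b c : K) : Set (HeightOneSpectrum (𝓞 K)) :=
  {v | ¬ (v.valuation K a = v.valuation K b ∧ v.valuation K b = v.valuation K c)}

theorem mem_cS {a b c : K} (ha : a ≠ 0) (hb : b ≠ 0) (hc : c ≠ 0) (v : HeightOneSpectrum (𝓞 K)) :
    v ∈ cS a b c ↔ od v (a / b) ≠ 0 ∨ od v (b / c) ≠ 0 := by
  unfold cS
  rw [Set.mem_ofPred_eq, ← od_eq_iff v ha hb, ← od_eq_iff v hb hc, od_div v ha hb, od_div v hb hc]
  constructor
  · intro h
    by_contra hcon
    push Not at hcon
    exact h ⟨by omega, by omega⟩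
  · rintro h ⟨h1, h2⟩
    rcases h with h | h <;> omega

theorem cS_finite {a b c : K} (ha : a ≠ 0) (hb : b ≠ 0) (hc : c ≠ 0) : (cS a b c).Finite := by
  refine ((od_finite (div_ne_zero ha hb)).union (od_finite (div_ne_zero hb hc))).subset ?_
  intro v hv
  exact (mem_cS ha hb hc v).1 hv

theorem N_eq {a b c : K} (ha : a ≠ 0) (hb : b ≠ 0) (hc : c ≠ 0) :
    N a b c = (∏ v ∈ (cS_finite ha hb hc).toFinset, (Ideal.absNorm v.asIdeal : ℝ)) ^
      (1 / (finrank ℚ K : ℝ)) := by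
  classical
  unfold N
  congr 1
  rw [finprod_eq_prod_of_mulSupport_subset (s := (cS_finite ha hb hc).toFinset)]
  · refine Finset.prod_congr rfl fun v hv => ?_
    rw [Set.Finite.mem_toFinset] at hv
    rw [if_neg hv]
  · intro v hv
    rw [Set.Finite.coe_toFinset]
    intro hcon
    apply hv
    exact if_pos hcon

theorem prod_norm_pos (S : Finset (HeightOneSpectrum (𝓞 K))) :
    0 < ∏ v ∈ S, (Ideal.absNorm v.asIdeal : ℝ) := by
  refine Finset.prod_pos fun v _ => ?_
  have := two_le_absNorm v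
  exact_mod_cast (by omega : 0 < Ideal.absNorm v.asIdeal)

theorem N_pos {a b c : K} (ha : a ≠ 0) (hb : b ≠ 0) (hc : c ≠ 0) : 0 < N a b c := by
  rw [N_eq ha hb hc]
  exact Real.rpow_pos_of_pos (prod_norm_pos _) _

theorem log_N {a b c : K} (ha : a ≠ 0) (hb : b ≠ 0) (hc : c ≠ 0) :
    Real.log (N a b c) = (∑ v ∈ (cS_finite ha hb hc).toFinset, nu v) / finrank ℚ K := by
  rw [N_eq ha hb hc, Real.log_rpow (prod_norm_pos _), Real.log_prod]
  · unfold nu; ring
  · intro v _
    have := two_le_absNorm v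
    exact_mod_cast (by omega : Ideal.absNorm v.asIdeal ≠ 0)

theorem N_pow {a b c : K} (ha : a ≠ 0) (hb : b ≠ 0) (hc : c ≠ 0) {ℓ : ℕ} (hℓ : ℓ ≠ 0) :
    N (a ^ ℓ) (b ^ ℓ) (c ^ ℓ) = N a b c := by
  unfold N
  congr 1
  refine finprod_congr fun v => ?_
  have h1 : ∀ {x y : K}, x ≠ 0 → y ≠ 0 → (v.valuation K (x ^ ℓ) = v.valuation K (y ^ ℓ) ↔
      v.valuation K x = v.valuation K y) := by
    intro x y hx hy
    rw [← od_eq_iff v (pow_ne_zero _ hx) (pow_ne_zero _ hy), ← od_eq_iff v hx hy, od_pow, od_pow]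
    have : (ℓ : ℤ) ≠ 0 := by exact_mod_cast hℓ
    constructor
    · intro h; exact mul_left_cancel₀ this h
    · intro h; rw [h]
  simp only [h1 ha hb, h1 hb hc]

theorem H_pow (a b c : K) (ℓ : ℕ) : H (a ^ ℓ) (b ^ ℓ) (c ^ ℓ) = H a b c ^ ℓ := by
  unfold H
  have h1 : (![a ^ ℓ, b ^ ℓ, c ^ ℓ] : Fin 3 → K) = ![a, b, c] ^ ℓ := by
    funext i
    fin_cases i <;> rfl
  rw [h1, mulHeight_pow, ← Real.rpow_natCast, ← Real.rpow_natCast, ← Real.rpow_mul, ← Real.rpow_mul,
    mul_comm]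
  · exact (mulHeight_pos _).le
  · exact (mulHeight_pos _).le

end defs

/-- the covering step -/
theorem cover (K : Type) [Field K] [NumberField K] {a b c : K} (ha : a ≠ 0) (hb : b ≠ 0)
    (hc : c ≠ 0) (habc : a + b + c = 0) {ℓ : ℕ} (hℓ : ℓ.Prime) :
    ∃ (L : Type) (_ : Field L) (_ : NumberField L) (u v w : L), u ≠ 0 ∧ v ≠ 0 ∧ w ≠ 0 ∧
      u ^ ℓ + v ^ ℓ + w ^ ℓ = 0 ∧
      ℓ * Real.log (H u v w) = Real.log (H a b c) ∧
      Real.log (rd L) ≤ Real.log (rd K) + Real.log (N a b c) + 2 * Real.log ℓ ∧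
      ℓ * Real.log (N u v w) ≤ 8 * Real.log (H a b c) := by
  classical
  have hy : a / b ≠ 0 := div_ne_zero ha hb
  have hz : b / c ≠ 0 := div_ne_zero hb hc
  obtain ⟨L, _, _, _, α, β, hα, hβ, hdisc⟩ := two_step K hℓ hy hz (cS_finite ha hb hc).toFinset
    (fun v hv => by
      rw [Set.Finite.mem_toFinset, mem_cS ha hb hc]
      rcases hv with h | h
      · left; rintro h0; rw [h0] at h; exact h (dvd_zero _)
      · right; rintro h0; rw [h0] at h; exact h (dvd_zero _))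
  have hα0 : α ≠ 0 := by
    rintro rfl
    rw [zero_pow hℓ.ne_zero] at hα
    exact hy ((map_eq_zero _).1 hα.symm)
  have hβ0 : β ≠ 0 := by
    rintro rfl
    rw [zero_pow hℓ.ne_zero] at hβ
    exact hz ((map_eq_zero _).1 hβ.symm)
  have hn : finrank ℚ K * finrank K L = finrank ℚ L := Module.finrank_mul_finrank ℚ K L
  have hn' : (finrank ℚ K : ℝ) * finrank K L = finrank ℚ L := by exact_mod_cast hn
  have hK : (0 : ℝ) < finrank ℚ K := fr_pos
  have hL : (0 : ℝ) < finrank ℚ L := fr_pos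
  have hKL : (0 : ℝ) < finrank K L := by exact_mod_cast finrank_pos
  refine ⟨L, inferInstance, inferInstance, α * β, β, 1, mul_ne_zero hα0 hβ0, hβ0, one_ne_zero, ?_,
    ?_, ?_, ?_⟩
  · rw [mul_pow, hα, hβ, one_pow, ← map_mul, div_mul_div_cancel₀ hb, ← map_add,
      ← map_one (algebraMap K L), ← map_add]
    have : a / c + b / c + 1 = 0 := by
      field_simp
      linear_combination habc
    rw [this, map_zero]
  · have h1 : Real.log (H ((α * β) ^ ℓ) (β ^ ℓ) (1 ^ ℓ)) = ℓ * Real.log (H (α * β) β 1) := by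
      rw [H_pow, Real.log_pow]
    rw [← h1, log_H, log_H]
    have h2 : (![(α * β) ^ ℓ, β ^ ℓ, 1 ^ ℓ] : Fin 3 → L) =
        (algebraMap K L c)⁻¹ • (fun i => algebraMap K L ((![a, b, c] : Fin 3 → K) i)) := by
      funext i
      have hcL : algebraMap K L c ≠ 0 := by simpa using hc
      fin_cases i
      · show (α * β) ^ ℓ = (algebraMap K L c)⁻¹ • algebraMap K L a
        rw [mul_pow, hα, hβ, ← map_mul, div_mul_div_cancel₀ hb, smul_eq_mul, map_div₀]
        ring
      · show β ^ ℓ = (algebraMap K L c)⁻¹ • algebraMap K L b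
        rw [hβ, smul_eq_mul, map_div₀]
        ring
      · show (1 : L) ^ ℓ = (algebraMap K L c)⁻¹ • algebraMap K L c
        rw [smul_eq_mul, inv_mul_cancel₀ hcL, one_pow]
    rw [h2, logHeight_smul_eq_logHeight _ (inv_ne_zero (by simpa using hc)),
      Pool.Agent.Helper259.HtExt.logHeight_ext, ← hn']
    field_simp
  · rw [log_rd, log_rd, log_N ha hb hc, ← add_div, div_add' _ _ _ hK.ne',
      div_le_div_iff₀ hL hK, ← hn']
    rw [← hn'] at hdisc
    nlinarith
  · rw [log_N (mul_ne_zero hα0 hβ0) hβ0 one_ne_zero, log_H]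
    have h1 := cond_le hℓ hy hz hα hβ (cS_finite (mul_ne_zero hα0 hβ0) hβ0 one_ne_zero).toFinset
      (fun w hw => by
        rw [Set.Finite.mem_toFinset, mem_cS (mul_ne_zero hα0 hβ0) hβ0 one_ne_zero] at hw
        rwa [mul_div_cancel_right₀ _ hβ0, div_one] at hw)
      (cS_finite ha hb hc).toFinset
      (fun v hv => by
        rw [Set.Finite.mem_toFinset, mem_cS ha hb hc]
        exact hv)
    have h2 := sum_abs_le hy (cS_finite ha hb hc).toFinset
    have h3 := sum_abs_le hz (cS_finite ha hb hc).toFinset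
    have h4 : logHeight₁ (a / b) ≤ logHeight ![a, b, c] := by
      rw [logHeight₁_div_eq_logHeight]
      have := logHeight_comp_le (![0, 1] : Fin 2 → Fin 3) (![a, b, c] : Fin 3 → K)
      convert this using 2
      funext i; fin_cases i <;> rfl
    have h5 : logHeight₁ (b / c) ≤ logHeight ![a, b, c] := by
      rw [logHeight₁_div_eq_logHeight]
      have := logHeight_comp_le (![1, 2] : Fin 2 → Fin 3) (![a, b, c] : Fin 3 → K)
      convert this using 2
      funext i; fin_cases i <;> rfl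
    have h6 : ∑ v ∈ (cS_finite ha hb hc).toFinset,
        ((|od v (a / b)| + |od v (b / c)| : ℤ) : ℝ) * nu v =
        ∑ v ∈ (cS_finite ha hb hc).toFinset, ((|od v (a / b)| : ℤ) : ℝ) * nu v +
        ∑ v ∈ (cS_finite ha hb hc).toFinset, ((|od v (b / c)| : ℤ) : ℝ) * nu v := by
      rw [← Finset.sum_add_distrib]
      refine Finset.sum_congr rfl fun v _ => ?_
      push_cast
      ring
    rw [h6] at h1
    have h7 : (ℓ : ℝ) * ∑ w ∈ (cS_finite (mul_ne_zero hα0 hβ0) hβ0 (one_ne_zero (α := L))).toFinset,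
        nu w ≤ finrank K L * (8 * logHeight ![a, b, c]) := by
      refine h1.trans ?_
      rw [mul_left_comm]
      refine mul_le_mul_of_nonneg_left ?_ hKL.le
      linarith
    rw [mul_div_assoc', mul_div_assoc', div_le_div_iff₀ hL hK, ← hn']
    nlinarith

/-- the analytic step -/
theorem analytic (A ε c : ℝ) (φ : ℝ → ℝ) (hA : 0 ≤ A) (hε : 0 < ε)
    (hφ : ∀ κ : ℝ, 0 < κ → ∃ c : ℝ, ∀ h : ℝ, 0 ≤ h → φ h ≤ κ * h + c) :
    ∃ c' : ℝ, ∀ h D R l : ℝ, 0 ≤ h → l ≤ Real.log 4 + Real.log (8 * h + 1) + φ h →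
      h ≤ c + (A + ε / 2) * (D + R + 2 * l) → h ≤ c' + (A + ε) * (D + R) := by
  set B := A + ε / 2 with hB
  have hB0 : 0 < B := by positivity
  set θ := ε / (2 * (A + ε)) with hθ
  have hAε : 0 < A + ε := by positivity
  have hθ0 : 0 < θ := by positivity
  have hθ1 : 0 < 1 - θ := by
    rw [hθ, sub_pos, div_lt_one (by positivity)]
    linarith
  have hθB : (1 - θ) * (A + ε) = B := by
    rw [hθ, hB]
    field_simp
    ring
  obtain ⟨c1, hc1⟩ := hφ (θ / (4 * B)) (by positivity)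
  set t := 32 * B / θ with ht
  have ht0 : 0 < t := by positivity
  set c2 := 2 * B * (Real.log 4 + 1 / t + Real.log t + c1) with hc2
  refine ⟨(c + c2) / (1 - θ), fun h D R l hh hle hmain => ?_⟩
  have hlog : Real.log (8 * h + 1) ≤ (8 * h + 1) / t + Real.log t := by
    have h1 : Real.log ((8 * h + 1) / t) ≤ (8 * h + 1) / t - 1 :=
      Real.log_le_sub_one_of_pos (by positivity)
    rw [Real.log_div (by positivity) ht0.ne'] at h1
    linarith
  have h3 : 2 * B * (8 * h / t) = θ / 2 * h := by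
    rw [ht]
    field_simp
    ring
  have h3' : 2 * B * (θ / (4 * B) * h) = θ / 2 * h := by
    field_simp
    ring
  have h5 : B * (2 * l) ≤ θ * h + c2 := by
    have h6 : l ≤ 8 * h / t + θ / (4 * B) * h + (Real.log 4 + 1 / t + Real.log t + c1) := by
      have e1 := hc1 h hh
      have e2 : (8 * h + 1) / t = 8 * h / t + 1 / t := by ring
      rw [e2] at hlog
      linarith
    have h7 := mul_le_mul_of_nonneg_left h6 (by positivity : 0 ≤ 2 * B)
    rw [hc2]
    calc B * (2 * l) = 2 * B * l := by ring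
      _ ≤ 2 * B * (8 * h / t + θ / (4 * B) * h + (Real.log 4 + 1 / t + Real.log t + c1)) := h7
      _ = 2 * B * (8 * h / t) + 2 * B * (θ / (4 * B) * h) +
          2 * B * (Real.log 4 + 1 / t + Real.log t + c1) := by ring
      _ = θ * h + 2 * B * (Real.log 4 + 1 / t + Real.log t + c1) := by rw [h3, h3']; ring
  have h6 : (1 - θ) * h ≤ (c + c2) + B * (D + R) := by
    have : B * (D + R + 2 * l) = B * (D + R) + B * (2 * l) := by ring
    rw [this] at hmain
    linarith
  have h7 : (1 - θ) * h ≤ (1 - θ) * ((c + c2) / (1 - θ) + (A + ε) * (D + R)) := by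
    rw [mul_add, mul_div_cancel₀ _ hθ1.ne', ← mul_assoc, hθB]
    exact h6
  exact le_of_mul_le_mul_left h7 hθ1

theorem log_N_nonneg {K : Type*} [Field K] [NumberField K] {a b c : K} (ha : a ≠ 0) (hb : b ≠ 0)
    (hc : c ≠ 0) : 0 ≤ Real.log (N a b c) := by
  rw [log_N ha hb hc]
  exact div_nonneg (Finset.sum_nonneg fun v _ => (nu_pos v).le) (Nat.cast_nonneg _)

theorem log_rd_nonneg {K : Type*} [Field K] [NumberField K] : 0 ≤ Real.log (rd K) := by
  rw [log_rd]
  exact div_nonneg ldisc_nonneg (Nat.cast_nonneg _)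

theorem log_H_nonneg {K : Type*} [Field K] [NumberField K] (a b c : K) :
    0 ≤ Real.log (H a b c) := by
  rw [log_H]
  exact div_nonneg (logHeight_nonneg _) (Nat.cast_nonneg _)

/-- from solutions of Fermat equations to all triples -/
theorem of_fermat (A : ℝ) (φ : ℝ → ℝ) (hA : 0 ≤ A)
    (hφ : ∀ κ : ℝ, 0 < κ → ∃ c : ℝ, ∀ h : ℝ, 0 ≤ h → φ h ≤ κ * h + c)
    (hφ0 : ∀ h : ℝ, 0 ≤ h → 0 ≤ φ h)
    (hF : ∀ ε : ℝ, 0 < ε → ∃ C : ℝ, 0 < C ∧ ∀ (K : Type) [Field K] [NumberField K] (ℓ : ℕ)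
      (u v w : K), ℓ.Prime → u ≠ 0 → v ≠ 0 → w ≠ 0 → u ^ ℓ + v ^ ℓ + w ^ ℓ = 0 →
      Real.exp (φ (ℓ * Real.log (H u v w))) ≤ ℓ →
      Real.log (N u v w) ≤ Real.exp (-φ (ℓ * Real.log (H u v w))) →
      H u v w ^ ℓ ≤ C * rd K ^ (A + ε))
    (ε : ℝ) (hε : 0 < ε) : ∃ C : ℝ, 0 < C ∧ ∀ (K : Type) [Field K] [NumberField K] (a b c : K),
      a ≠ 0 → b ≠ 0 → c ≠ 0 → a + b + c = 0 → H a b c ≤ C * (rd K * N a b c) ^ (A + ε) := by
  obtain ⟨C, hC, hF⟩ := hF (ε / 2) (by positivity)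
  obtain ⟨c', hc'⟩ := analytic A ε (Real.log C) φ hA hε hφ
  refine ⟨Real.exp c', Real.exp_pos _, fun K _ _ a b c ha hb hc habc => ?_⟩
  set h := Real.log (H a b c) with hh
  have hh0 : 0 ≤ h := log_H_nonneg a b c
  have hE1 : 1 ≤ Real.exp (φ h) := Real.one_le_exp (hφ0 h hh0)
  have hE0 : 0 < Real.exp (φ h) := Real.exp_pos _
  set x : ℝ := (8 * h + 1) * Real.exp (φ h) with hx
  have hx1 : 1 ≤ x := by nlinarith
  set M : ℕ := ⌈x⌉₊ with hM
  have hM0 : M ≠ 0 := by
    rw [hM, Ne, Nat.ceil_eq_zero]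
    linarith
  obtain ⟨ℓ, hℓ, h1, h2⟩ := Nat.exists_prime_lt_and_le_two_mul M hM0
  have hℓ0 : (0 : ℝ) < ℓ := by exact_mod_cast hℓ.pos
  have h3 : x ≤ ℓ := by
    refine (Nat.le_ceil _).trans ?_
    exact_mod_cast h1.le
  have h5 : Real.log ℓ ≤ Real.log 4 + Real.log (8 * h + 1) + φ h := by
    have e1 : (ℓ : ℝ) ≤ 2 * M := by exact_mod_cast h2
    have e3 := Nat.ceil_lt_add_one (by linarith : 0 ≤ x)
    have e4 : (ℓ : ℝ) ≤ 4 * x := by
      have : (M : ℝ) ≤ x + 1 := e3.le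
      linarith
    have e5 := Real.log_le_log hℓ0 e4
    rw [hx, Real.log_mul (by norm_num) (by positivity), Real.log_mul (by positivity) hE0.ne',
      Real.log_exp] at e5
    linarith
  obtain ⟨L, _, _, u, v, w, hu, hv, hw, huvw, g1, g2, g3⟩ := cover K ha hb hc habc hℓ
  have h7 : Real.exp (φ (ℓ * Real.log (H u v w))) ≤ ℓ := by
    rw [g1]
    refine le_trans ?_ h3
    rw [hx]
    nlinarith
  have h8 : Real.log (N u v w) ≤ Real.exp (-φ (ℓ * Real.log (H u v w))) := by
    rw [g1, Real.exp_neg]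
    refine le_of_mul_le_mul_left (a := (ℓ : ℝ)) ?_ hℓ0
    refine g3.trans ?_
    rw [← div_eq_mul_inv, le_div_iff₀ hE0]
    refine le_trans ?_ h3
    rw [hx]
    nlinarith
  have h9 := hF L ℓ u v w hℓ hu hv hw huvw h7 h8
  have h10 := Real.log_le_log (pow_pos (H_pos u v w) ℓ) h9
  have hrd : 0 < rd L := rd_pos
  rw [Real.log_pow, g1, Real.log_mul hC.ne' (Real.rpow_pos_of_pos hrd _).ne',
    Real.log_rpow hrd] at h10
  have hB : 0 ≤ A + ε / 2 := by positivity
  have h11 : h ≤ Real.log C + (A + ε / 2) *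
      (Real.log (rd K) + Real.log (N a b c) + 2 * Real.log ℓ) :=
    h10.trans (by linarith [mul_le_mul_of_nonneg_left g2 hB])
  have h12 := hc' h _ _ _ hh0 h5 h11
  have hrdK : 0 < rd K := rd_pos
  have hN := N_pos ha hb hc
  rw [← Real.log_le_log_iff (H_pos _ _ _)
    (mul_pos (Real.exp_pos _) (Real.rpow_pos_of_pos (mul_pos hrdK hN) _)),
    Real.log_mul (Real.exp_pos _).ne' (Real.rpow_pos_of_pos (mul_pos hrdK hN) _).ne',
    Real.log_exp, Real.log_rpow (mul_pos hrdK hN), Real.log_mul hrdK.ne' hN.ne']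
  exact h12

end Pool.Agent.N756.UA
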