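import Mathlib

/-! Orders at primes of number fields, and sums over the primes above a prime. -/

set_option autoImplicit false

open NumberField IsDedekindDomain

namespace Pool.Agent.N756.UA

section ord

variable {K : Type*} [Field K] [NumberField K]

/-- the order of `x` at the prime `v` (zero for `x = 0`) -/
noncomputable def od (v : HeightOneSpectrum (𝓞 K)) (x : K) : ℤ := - WithZero.log (v.valuation K x)

theorem od_zero (v : HeightOneSpectrum (𝓞 K)) : od v 0 = 0 := by simp [od]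

theorem od_one (v : HeightOneSpectrum (𝓞 K)) : od v 1 = 0 := by simp [od]

theorem od_mul (v : HeightOneSpectrum (𝓞 K)) {x y : K} (hx : x ≠ 0) (hy : y ≠ 0) :
    od v (x * y) = od v x + od v y := by
  unfold od
  rw [map_mul, WithZero.log_mul ((Valuation.ne_zero_iff _).2 hx) ((Valuation.ne_zero_iff _).2 hy)]
  ring

theorem od_pow (v : HeightOneSpectrum (𝓞 K)) (x : K) (n : ℕ) : od v (x ^ n) = n * od v x := by
  unfold od
  rw [map_pow, WithZero.log_pow]
  simp

theorem od_inv (v : HeightOneSpectrum (𝓞 K)) (x : K) : od v x⁻¹ = - od v x := by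
  unfold od
  rw [map_inv₀, WithZero.log_inv]

theorem od_div (v : HeightOneSpectrum (𝓞 K)) {x y : K} (hx : x ≠ 0) (hy : y ≠ 0) :
    od v (x / y) = od v x - od v y := by
  rw [div_eq_mul_inv, od_mul v hx (inv_ne_zero hy), od_inv]; ring

theorem od_zpow (v : HeightOneSpectrum (𝓞 K)) (x : K) (n : ℤ) : od v (x ^ n) = n * od v x := by
  cases n with
  | ofNat n => simpa using od_pow v x n
  | negSucc n =>
    rw [zpow_negSucc, od_inv, od_pow]
    simp only [Int.negSucc_eq]
    push_cast; ring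

theorem od_nonneg_iff (v : HeightOneSpectrum (𝓞 K)) {x : K} (hx : x ≠ 0) :
    0 ≤ od v x ↔ v.valuation K x ≤ 1 := by
  unfold od
  have h1 : v.valuation K x ≠ 0 := (Valuation.ne_zero_iff _).2 hx
  rw [← WithZero.log_le_log h1 one_ne_zero, WithZero.log_one]
  omega

theorem od_eq_iff (v : HeightOneSpectrum (𝓞 K)) {x y : K} (hx : x ≠ 0) (hy : y ≠ 0) :
    od v x = od v y ↔ v.valuation K x = v.valuation K y := by
  unfold od
  have h1 : v.valuation K x ≠ 0 := (Valuation.ne_zero_iff _).2 hx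
  have h2 : v.valuation K y ≠ 0 := (Valuation.ne_zero_iff _).2 hy
  rw [neg_inj]
  constructor
  · intro h
    rw [← WithZero.exp_log h1, ← WithZero.exp_log h2, h]
  · intro h; rw [h]

theorem od_int (v : HeightOneSpectrum (𝓞 K)) (r : 𝓞 K) : 0 ≤ od v (algebraMap (𝓞 K) K r) := by
  by_cases h : algebraMap (𝓞 K) K r = 0
  · rw [h, od_zero]
  · rw [od_nonneg_iff v h]
    exact v.valuation_le_one r

theorem od_int_pos_iff (v : HeightOneSpectrum (𝓞 K)) {r : 𝓞 K} (hr : r ≠ 0) :
    0 < od v (algebraMap (𝓞 K) K r) ↔ r ∈ v.asIdeal := by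
  have h : algebraMap (𝓞 K) K r ≠ 0 := by simpa using hr
  rw [← v.valuation_lt_one_iff_mem (K := K) r]
  unfold od
  have h1 : v.valuation K (algebraMap (𝓞 K) K r) ≠ 0 := (Valuation.ne_zero_iff _).2 h
  rw [← WithZero.log_lt_log h1 one_ne_zero, WithZero.log_one]
  omega

theorem od_primeCompl (v : HeightOneSpectrum (𝓞 K)) (d : v.asIdeal.primeCompl) :
    (d : 𝓞 K) ≠ 0 ∧ od v (algebraMap (𝓞 K) K d) = 0 := by
  have h0 : (d : 𝓞 K) ≠ 0 := by
    intro h
    apply d.2
    rw [h]; exact Ideal.zero_mem _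
  refine ⟨h0, le_antisymm ?_ (od_int v d)⟩
  by_contra hcon
  push Not at hcon
  exact d.2 ((od_int_pos_iff v h0).1 hcon)

/-- an element of nonnegative order is a quotient of integers with denominator prime to `v` -/
theorem exists_compl (v : HeightOneSpectrum (𝓞 K)) {x : K} (h : 0 ≤ od v x) :
    ∃ (n : 𝓞 K) (d : v.asIdeal.primeCompl), x * algebraMap (𝓞 K) K d = algebraMap (𝓞 K) K n := by
  apply v.exists_primeCompl_mul_eq_of_integer
  by_cases hx : x = 0
  · rw [hx, map_zero]; exact zero_le_one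
  · exact (od_nonneg_iff v hx).1 h

theorem exists_unif (v : HeightOneSpectrum (𝓞 K)) : ∃ π : K, π ≠ 0 ∧ od v π = 1 := by
  obtain ⟨π, hπ⟩ := v.valuation_exists_uniformizer K
  refine ⟨π, ?_, ?_⟩
  · rintro rfl
    rw [map_zero] at hπ
    exact WithZero.exp_ne_zero hπ.symm
  · unfold od; rw [hπ]; simp

theorem od_finite {x : K} (hx : x ≠ 0) : {v : HeightOneSpectrum (𝓞 K) | od v x ≠ 0}.Finite := by
  have h1 := HeightOneSpectrum.Support.finite (R := 𝓞 K) x
  have h2 := HeightOneSpectrum.Support.finite (R := 𝓞 K) x⁻¹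
  refine (h1.union h2).subset fun v hv => ?_
  by_contra hcon
  rw [Set.mem_union, not_or] at hcon
  obtain ⟨h3, h4⟩ := hcon
  simp only [HeightOneSpectrum.Support, Set.mem_ofPred_eq, not_lt] at h3 h4
  apply hv
  have h5 := (od_nonneg_iff v hx).2 h3
  have h6 := (od_nonneg_iff v (inv_ne_zero hx)).2 h4
  rw [od_inv] at h6
  omega

/-- the logarithm of the norm of a prime -/
noncomputable def nu (v : HeightOneSpectrum (𝓞 K)) : ℝ := Real.log (Ideal.absNorm v.asIdeal)

theorem two_le_absNorm (v : HeightOneSpectrum (𝓞 K)) : 2 ≤ Ideal.absNorm v.asIdeal := by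
  have h1 : Ideal.absNorm v.asIdeal ≠ 0 := Ideal.absNorm_eq_zero_iff.not.2 v.ne_bot
  have h2 : Ideal.absNorm v.asIdeal ≠ 1 := Ideal.absNorm_eq_one_iff.not.2 v.isPrime.ne_top
  omega

theorem nu_pos (v : HeightOneSpectrum (𝓞 K)) : 0 < nu v := by
  unfold nu
  apply Real.log_pos
  have := two_le_absNorm v
  exact_mod_cast (by omega : 1 < Ideal.absNorm v.asIdeal)

end ord

section ext

variable {K L : Type*} [Field K] [NumberField K] [Field L] [NumberField L] [Algebra K L]

/-- ramification index over the prime below -/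
noncomputable def ri (K : Type*) {L : Type*} [Field K] [NumberField K] [Field L] [NumberField L]
    [Algebra K L] (w : HeightOneSpectrum (𝓞 L)) : ℕ :=
  (w.under (𝓞 K)).asIdeal.ramificationIdx' w.asIdeal

theorem over_under (w : HeightOneSpectrum (𝓞 L)) :
    w.asIdeal.LiesOver (w.under (𝓞 K)).asIdeal := ⟨rfl⟩

theorem ri_pos (w : HeightOneSpectrum (𝓞 L)) : 0 < ri K w := by
  unfold ri
  have := over_under (K := K) w
  exact Nat.pos_of_ne_zero
    (Ideal.IsDedekindDomain.ramificationIdx'_ne_zero_of_liesOver w.asIdeal (w.under (𝓞 K)).ne_bot)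

theorem od_under (w : HeightOneSpectrum (𝓞 L)) (x : K) :
    od w (algebraMap K L x) = ri K w * od (w.under (𝓞 K)) x := by
  have := over_under (K := K) w
  unfold od ri
  rw [← HeightOneSpectrum.valuation_liesOver L (w.under (𝓞 K)) w x, WithZero.log_pow]
  simp

theorem finrank_int : Module.finrank (𝓞 K) (𝓞 L) = Module.finrank K L :=
  (IsFractionRing.finrank_eq (𝓞 K) K (𝓞 L) L).symm

/-- the primes above a prime -/
theorem exists_fib (v : HeightOneSpectrum (𝓞 K)) :
    ∃ W : Finset (HeightOneSpectrum (𝓞 L)), (∀ w, w ∈ W ↔ w.under (𝓞 K) = v) ∧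
      ∑ w ∈ W, (ri K w : ℝ) * nu w = Module.finrank K L * nu v := by
  classical
  have hmax : v.asIdeal.IsMaximal := v.isMaximal
  set I : Finset (Ideal (𝓞 L)) := (v.asIdeal.primesOver (𝓞 L)).toFinset with hIdef
  have hI : ∀ Q, Q ∈ I ↔ Q.IsPrime ∧ Q.LiesOver v.asIdeal := by
    intro Q
    rw [hIdef, Set.mem_toFinset]
    rfl
  have hbot : ∀ Q, Q ∈ I → Q ≠ ⊥ := by
    intro Q hQ
    obtain ⟨h1, h2⟩ := (hI Q).1 hQ
    exact Ideal.ne_bot_of_liesOver_of_ne_bot v.ne_bot Q
  set W : Finset (HeightOneSpectrum (𝓞 L)) :=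
    I.attach.image (fun Q => ⟨Q.1, ((hI Q.1).1 Q.2).1, hbot Q.1 Q.2⟩) with hW
  have hmem : ∀ w, w ∈ W ↔ w.under (𝓞 K) = v := by
    intro w
    rw [hW, Finset.mem_image]
    constructor
    · rintro ⟨⟨Q, hQ⟩, _, rfl⟩
      have h1 := ((hI Q).1 hQ).2.over
      exact HeightOneSpectrum.ext h1.symm
    · intro h
      have hw : w.asIdeal ∈ I := by
        rw [hI]
        refine ⟨w.isPrime, ⟨?_⟩⟩
        rw [← h]; rfl
      exact ⟨⟨w.asIdeal, hw⟩, Finset.mem_attach _ _, rfl⟩
  refine ⟨W, hmem, ?_⟩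
  have hmap : Ideal.map (algebraMap (𝓞 K) (𝓞 L)) v.asIdeal =
      ∏ Q ∈ I, Q ^ Q.ramificationIdx (𝓞 K) :=
    Ideal.map_algebraMap_eq_finsetProd_pow v.ne_bot
  have s2 : (Module.finrank K L : ℝ) * nu v =
      ∑ Q ∈ I, (Q.ramificationIdx (𝓞 K) : ℝ) * Real.log (Ideal.absNorm Q) := by
    have h1 := Ideal.absNorm_algebraMap (𝓞 K) (𝓞 L) v.asIdeal
    rw [hmap, map_prod, finrank_int (K := K) (L := L)] at h1
    have h2 : (∏ Q ∈ I, ((Ideal.absNorm Q : ℝ)) ^ Q.ramificationIdx (𝓞 K)) =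
        (Ideal.absNorm v.asIdeal : ℝ) ^ Module.finrank K L := by
      have h3 := congrArg (fun n : ℕ => (n : ℝ)) h1
      simp only [Nat.cast_prod, Nat.cast_pow, map_pow] at h3
      exact h3
    unfold nu
    rw [← Real.log_pow, ← h2, Real.log_prod]
    · refine Finset.sum_congr rfl fun Q _ => ?_
      rw [Real.log_pow]
    · intro Q hQ
      refine pow_ne_zero _ ?_
      rw [Nat.cast_ne_zero]
      exact Ideal.absNorm_eq_zero_iff.not.2 (hbot Q hQ)
  rw [s2, hW, Finset.sum_image, ← Finset.sum_attach I]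
  · refine Finset.sum_congr rfl fun Q _ => ?_
    have h1 := ((hI Q.1).1 Q.2).2
    have h2 := ((hI Q.1).1 Q.2).1
    have h3 : ri K (⟨Q.1, ((hI Q.1).1 Q.2).1, hbot Q.1 Q.2⟩ : HeightOneSpectrum (𝓞 L)) =
        Q.1.ramificationIdx (𝓞 K) := by
      unfold ri
      have h4 : (HeightOneSpectrum.under (𝓞 K)
          (⟨Q.1, ((hI Q.1).1 Q.2).1, hbot Q.1 Q.2⟩ : HeightOneSpectrum (𝓞 L))).asIdeal = v.asIdeal := by
        exact h1.over.symm
      rw [h4]
      exact Ideal.ramificationIdx'_eq_ramificationIdx _ _ v.ne_bot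
    rw [h3]
    rfl
  · intro Q _ Q' _ h
    exact Subtype.ext (congrArg HeightOneSpectrum.asIdeal h)

/-- sums over primes above: if the primes `w` in `T` lie above `S` and have `ri ≥ c` -/
theorem sum_up (S : Finset (HeightOneSpectrum (𝓞 K))) (T : Finset (HeightOneSpectrum (𝓞 L)))
    (c : ℝ) (h1 : ∀ w ∈ T, w.under (𝓞 K) ∈ S) (h2 : ∀ w ∈ T, c ≤ ri K w) :
    c * ∑ w ∈ T, nu w ≤ Module.finrank K L * ∑ v ∈ S, nu v := by
  classical
  choose F hF1 hF2 using (exists_fib (K := K) (L := L))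
  calc c * ∑ w ∈ T, nu w = ∑ w ∈ T, c * nu w := Finset.mul_sum _ _ _
    _ ≤ ∑ w ∈ T, (ri K w : ℝ) * nu w :=
        Finset.sum_le_sum fun w hw => mul_le_mul_of_nonneg_right (h2 w hw) (nu_pos w).le
    _ = ∑ v ∈ S, ∑ w ∈ T with w.under (𝓞 K) = v, (ri K w : ℝ) * nu w :=
        (Finset.sum_fiberwise_of_maps_to h1 _).symm
    _ ≤ ∑ v ∈ S, ∑ w ∈ F v, (ri K w : ℝ) * nu w := by
        refine Finset.sum_le_sum fun v _ => ?_
        refine Finset.sum_le_sum_of_subset_of_nonneg ?_ ?_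
        · intro w hw
          rw [Finset.mem_filter] at hw
          exact (hF1 v w).2 hw.2
        · intro w _ _
          exact mul_nonneg (Nat.cast_nonneg _) (nu_pos w).le
    _ = Module.finrank K L * ∑ v ∈ S, nu v := by
        rw [Finset.mul_sum]
        exact Finset.sum_congr rfl fun v _ => hF2 v

end ext

end Pool.Agent.N756.UA
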