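import Pool.Agent.N756.UA.ST

/-! Height and conductor of a rational triple. -/

set_option autoImplicit false

open NumberField IsDedekindDomain Module Height

namespace Pool.Agent.N756.UA

theorem od_nat {K : Type*} [Field K] [NumberField K] (v : HeightOneSpectrum (𝓞 K)) (n : ℕ) :
    0 ≤ od v (n : K) := by
  have := od_int v (n : 𝓞 K)
  simpa using this

theorem od_nat_dvd {K : Type*} [Field K] [NumberField K] (v : HeightOneSpectrum (𝓞 K)) {m n : ℕ}
    (h : m ∣ n) (hn : n ≠ 0) : od v (m : K) ≤ od v (n : K) := by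
  obtain ⟨q, rfl⟩ := h
  have hm : (m : K) ≠ 0 := by
    have : m ≠ 0 := by rintro rfl; exact hn (by simp)
    exact_mod_cast this
  have hq : (q : K) ≠ 0 := by
    have : q ≠ 0 := by rintro rfl; exact hn (by simp)
    exact_mod_cast this
  push_cast
  rw [od_mul v hm hq]
  have := od_nat (K := K) v q
  omega

theorem sum_od_nat_le (n : ℕ) (hn : n ≠ 0) (Z : Finset (HeightOneSpectrum (𝓞 ℚ))) :
    ∑ v ∈ Z, (od v (n : ℚ) : ℝ) * nu v ≤ Real.log n := by
  have hn' : ((n : ℚ))⁻¹ ≠ 0 := inv_ne_zero (by exact_mod_cast hn)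
  have h1 := sum_neg_le hn' Z
  have : NeZero n := ⟨hn⟩
  rw [logHeight₁_inv, Rat.logHeight₁_natCast] at h1
  refine le_trans (le_of_eq ?_) h1
  refine Finset.sum_congr rfl fun v _ => ?_
  rw [od_inv, neg_neg, max_eq_left (od_nat v n)]

theorem rat_cond {a b P E k : ℕ} (ha : 0 < a) (hab : a < b) (hP : 0 < P) (haP : a ∣ P ^ E)
    (hbP : b ∣ P ^ E) (hk : 2 ^ k ∣ b - a) :
    Real.log (N (a : ℚ) ((b - a : ℕ) : ℚ) (-(b : ℚ))) ≤
      Real.log (2 * P) + Real.log b - k * Real.log 2 := by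
  have ha' : (a : ℚ) ≠ 0 := by exact_mod_cast ha.ne'
  have hb' : (b : ℚ) ≠ 0 := by exact_mod_cast (by omega : b ≠ 0)
  have hc0 : b - a ≠ 0 := by omega
  have hc' : ((b - a : ℕ) : ℚ) ≠ 0 := by exact_mod_cast hc0
  obtain ⟨c₁, hc₁⟩ := hk
  have hc₁0 : c₁ ≠ 0 := by
    rintro rfl
    rw [mul_zero] at hc₁
    exact hc0 hc₁
  rw [log_N ha' hc' (neg_ne_zero.2 hb')]
  have hfr : (finrank ℚ ℚ : ℝ) = 1 := by simp
  rw [hfr, div_one]
  have hn : 2 * P * c₁ ≠ 0 := by positivity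
  have h1 := sum_od_nat_le (2 * P * c₁) hn (cS_finite ha' hc' (neg_ne_zero.2 hb')).toFinset
  have h2 : ∑ v ∈ (cS_finite ha' hc' (neg_ne_zero.2 hb')).toFinset, nu v ≤
      ∑ v ∈ (cS_finite ha' hc' (neg_ne_zero.2 hb')).toFinset,
        (od v ((2 * P * c₁ : ℕ) : ℚ) : ℝ) * nu v := by
    refine Finset.sum_le_sum fun v hv => ?_
    have h3 : 1 ≤ od v ((2 * P * c₁ : ℕ) : ℚ) := by
      by_contra hcon
      have h4 : od v ((2 * P * c₁ : ℕ) : ℚ) = 0 := by
        have := od_nat (K := ℚ) v (2 * P * c₁)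
        omega
      have e1 : od v ((2 : ℕ) : ℚ) = 0 :=
        le_antisymm (h4 ▸ od_nat_dvd v (Dvd.intro _ (by ring : 2 * (P * c₁) = 2 * P * c₁)) hn)
          (od_nat v 2)
      have e2 : od v ((P : ℕ) : ℚ) = 0 :=
        le_antisymm (h4 ▸ od_nat_dvd v (Dvd.intro _ (by ring : P * (2 * c₁) = 2 * P * c₁)) hn)
          (od_nat v P)
      have e3 : od v ((c₁ : ℕ) : ℚ) = 0 :=
        le_antisymm (h4 ▸ od_nat_dvd v (Dvd.intro_left _ rfl) hn) (od_nat v c₁)
      have e4 : od v ((P ^ E : ℕ) : ℚ) = 0 := by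
        push_cast
        rw [od_pow, e2, mul_zero]
      have hPE : P ^ E ≠ 0 := by positivity
      have e5 : od v (a : ℚ) = 0 := le_antisymm (e4 ▸ od_nat_dvd v haP hPE) (od_nat v a)
      have e6 : od v (b : ℚ) = 0 := le_antisymm (e4 ▸ od_nat_dvd v hbP hPE) (od_nat v b)
      have e7 : od v ((b - a : ℕ) : ℚ) = 0 := by
        rw [hc₁]
        push_cast
        rw [od_mul v (by positivity) (by exact_mod_cast hc₁0), od_pow]
        have : ((2 : ℕ) : ℚ) = 2 := by norm_num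
        rw [this] at e1
        rw [e1, e3, mul_zero, zero_add]
      have e8 : od v (-(b : ℚ)) = 0 := by
        rw [← e6]
        unfold od
        rw [Valuation.map_neg]
      rw [Set.Finite.mem_toFinset] at hv
      apply hv
      rw [← od_eq_iff v ha' hc', ← od_eq_iff v hc' (neg_ne_zero.2 hb'), e5, e7, e8]
      exact ⟨rfl, rfl⟩
    have h5 : (1 : ℝ) ≤ (od v ((2 * P * c₁ : ℕ) : ℚ) : ℝ) := by exact_mod_cast h3
    have := mul_le_mul_of_nonneg_right h5 (nu_pos v).le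
    rwa [one_mul] at this
  refine h2.trans (h1.trans ?_)
  have hb0 : (0 : ℝ) < b := by exact_mod_cast (by omega : 0 < b)
  have h3 : Real.log ((2 * P * c₁ : ℕ) : ℝ) = Real.log (2 * P) + Real.log c₁ := by
    push_cast
    rw [Real.log_mul (by positivity) (by exact_mod_cast hc₁0)]
  have h4 : Real.log c₁ + k * Real.log 2 ≤ Real.log b := by
    rw [← Real.log_pow, ← Real.log_mul (by exact_mod_cast hc₁0) (by positivity)]
    apply Real.log_le_log
    · have : (0 : ℝ) < c₁ := by exact_mod_cast Nat.pos_of_ne_zero hc₁0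
      positivity
    · have : c₁ * 2 ^ k ≤ b := by
        rw [mul_comm, ← hc₁]; omega
      exact_mod_cast this
  rw [h3]
  linarith

theorem rat_height {a b : ℕ} (ha : 0 < a) (hab : a < b) (hcop : Nat.Coprime a b) :
    Real.log (H (a : ℚ) ((b - a : ℕ) : ℚ) (-(b : ℚ))) = Real.log b := by
  rw [log_H]
  have hfr : (finrank ℚ ℚ : ℝ) = 1 := by simp
  rw [hfr, div_one]
  have h1 : (![(a : ℚ), ((b - a : ℕ) : ℚ), -(b : ℚ)] : Fin 3 → ℚ) =
      ((↑) : ℤ → ℚ) ∘ ![(a : ℤ), ((b - a : ℕ) : ℤ), -(b : ℤ)] := by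
    funext i
    fin_cases i <;> simp
  have hgcd : Finset.univ.gcd (![(a : ℤ), ((b - a : ℕ) : ℤ), -(b : ℤ)] : Fin 3 → ℤ) = 1 := by
    set f : Fin 3 → ℤ := ![(a : ℤ), ((b - a : ℕ) : ℤ), -(b : ℤ)] with hf
    have g1 : Finset.univ.gcd f ∣ (a : ℤ) := Finset.gcd_dvd (f := f) (Finset.mem_univ (0 : Fin 3))
    have g2 : Finset.univ.gcd f ∣ -(b : ℤ) := Finset.gcd_dvd (f := f) (Finset.mem_univ (2 : Fin 3))
    have g3 : IsCoprime (a : ℤ) (b : ℤ) := Nat.isCoprime_iff_coprime.2 hcop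
    have g4 : IsUnit (Finset.univ.gcd f) := g3.isUnit_of_dvd' g1 ((dvd_neg).1 g2)
    rw [← Finset.normalize_gcd (s := Finset.univ) (f := f)]
    exact normalize_eq_one.2 g4
  rw [h1, Rat.logHeight_eq_max_abs_of_gcd_eq_one hgcd]
  congr 1
  have h2 : (⨆ i, |(![(a : ℤ), ((b - a : ℕ) : ℤ), -(b : ℤ)] : Fin 3 → ℤ) i|) = (b : ℤ) := by
    refine le_antisymm (ciSup_le fun i => ?_) ?_
    · fin_cases i
      · show |(a : ℤ)| ≤ b
        rw [Nat.abs_cast]; exact_mod_cast hab.le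
      · show |((b - a : ℕ) : ℤ)| ≤ b
        rw [Nat.abs_cast]; exact_mod_cast Nat.sub_le b a
      · show |-(b : ℤ)| ≤ b
        rw [abs_neg, Nat.abs_cast]
    · refine Finite.le_ciSup_of_le (2 : Fin 3) ?_
      show (b : ℤ) ≤ |-(b : ℤ)|
      rw [abs_neg, Nat.abs_cast]
  rw [h2]
  simp

end Pool.Agent.N756.UA
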