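import Pool.Agent.N756.UA.Main

/-! The pigeonhole construction of Stewart and Tijdeman. -/

set_option autoImplicit false

open NumberField IsDedekindDomain Module Height

namespace Pool.Agent.N756.UA

/-- the odd primes up to `y` -/
def oddP (y : ℕ) : Finset ℕ := (Nat.primesLE y).erase 2

theorem prime_of_oddP {y p : ℕ} (h : p ∈ oddP y) : p.Prime := by
  unfold oddP at h
  exact Nat.prime_of_mem_primesLE (Finset.mem_of_mem_erase h)

theorem prod_oddP_dvd (y : ℕ) : ∏ p ∈ oddP y, p ∣ primorial y := by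
  rw [primorial_eq_prod_primesLE]
  exact Finset.prod_dvd_prod_of_subset _ _ _ (Finset.erase_subset _ _)

/-- pigeonhole -/
theorem exists_cong (y E k : ℕ) (h : 2 ^ k < E ^ (oddP y).card) :
    ∃ a b : ℕ, 0 < a ∧ a < b ∧ Nat.Coprime a b ∧ a ∣ primorial y ^ E ∧ b ∣ primorial y ^ E ∧
      2 ^ k ∣ b - a := by
  classical
  set S := oddP y with hS
  let F : (S → Fin E) → ℕ := fun e => ∏ s : S, (s : ℕ) ^ (e s : ℕ)
  have hprime : ∀ s : S, (s : ℕ).Prime := fun s => prime_of_oddP s.2
  have hFpos : ∀ e, 0 < F e := fun e => Finset.prod_pos fun s _ => pow_pos (hprime s).pos _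
  have hfact : ∀ e (s : S), (F e).factorization s = e s := by
    intro e s
    show (∏ t : S, (t : ℕ) ^ (e t : ℕ)).factorization s = e s
    rw [Nat.factorization_prod fun t _ => pow_ne_zero _ (hprime t).ne_zero]
    rw [Finset.sum_apply']
    rw [Finset.sum_eq_single s]
    · rw [(hprime s).factorization_pow, Finsupp.single_eq_same]
    · intro t _ hts
      rw [(hprime t).factorization_pow, Finsupp.single_eq_of_ne]
      intro h
      exact hts (Subtype.ext h).symm
    · intro hh; exact absurd (Finset.mem_univ s) hh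
  have hFinj : Function.Injective F := by
    intro e e' hee
    funext s
    have := congrArg (fun n : ℕ => n.factorization (s : ℕ)) hee
    simp only [hfact] at this
    exact Fin.ext this
  have hdvd : ∀ e, F e ∣ primorial y ^ E := by
    intro e
    have h1 : F e ∣ (∏ s : S, (s : ℕ)) ^ E := by
      rw [← Finset.prod_pow]
      exact Finset.prod_dvd_prod_of_dvd _ _ fun s _ => pow_dvd_pow _ (e s).2.le
    refine h1.trans (pow_dvd_pow_of_dvd ?_ E)
    rw [Finset.prod_coe_sort S (fun p => p)]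
    exact prod_oddP_dvd y
  have hodd : ∀ e, Nat.Coprime 2 (F e) := by
    intro e
    refine Nat.Coprime.prod_right fun s _ => Nat.Coprime.pow_right _ ?_
    rw [Nat.coprime_primes Nat.prime_two (hprime s)]
    exact (Finset.ne_of_mem_erase s.2).symm
  have hNZ : NeZero (2 ^ k : ℕ) := ⟨by positivity⟩
  obtain ⟨e, e', hne, heq⟩ : ∃ e e' : S → Fin E, e ≠ e' ∧ ((F e : ℕ) : ZMod (2 ^ k)) = (F e' : ℕ) := by
    obtain ⟨e, e', h1, h2⟩ := Fintype.exists_ne_map_eq_of_card_lt
      (fun e : S → Fin E => ((F e : ℕ) : ZMod (2 ^ k))) (by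
        rw [ZMod.card, Fintype.card_fun, Fintype.card_fin, Fintype.card_coe]
        exact h)
    exact ⟨e, e', h1, h2⟩
  have key : ∀ e e' : S → Fin E, F e < F e' → ((F e : ℕ) : ZMod (2 ^ k)) = (F e' : ℕ) →
      ∃ a b : ℕ, 0 < a ∧ a < b ∧ Nat.Coprime a b ∧ a ∣ primorial y ^ E ∧ b ∣ primorial y ^ E ∧
      2 ^ k ∣ b - a := by
    intro e e' hlt heq
    set g := Nat.gcd (F e) (F e') with hg
    have hg0 : 0 < g := Nat.gcd_pos_of_pos_left _ (hFpos e)
    obtain ⟨a, ha⟩ := Nat.gcd_dvd_left (F e) (F e')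
    obtain ⟨b, hb⟩ := Nat.gcd_dvd_right (F e) (F e')
    rw [← hg] at ha hb
    have hcop : Nat.Coprime a b := by
      have h1 := Nat.coprime_div_gcd_div_gcd (m := F e) (n := F e') hg0
      rw [← hg, ha, hb, Nat.mul_div_cancel_left _ hg0, Nat.mul_div_cancel_left _ hg0] at h1
      exact h1
    have ha0 : 0 < a := by
      rcases Nat.eq_zero_or_pos a with h0 | h0
      · rw [h0, mul_zero] at ha
        have := hFpos e
        omega
      · exact h0
    have hab : a < b := by
      rw [ha, hb] at hlt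
      exact lt_of_mul_lt_mul_left hlt (Nat.zero_le _)
    refine ⟨a, b, ha0, hab, hcop, ?_, ?_, ?_⟩
    · exact (Dvd.intro_left _ ha.symm).trans (hdvd e)
    · exact (Dvd.intro_left _ hb.symm).trans (hdvd e')
    · have h1 : 2 ^ k ∣ F e' - F e := by
        rw [← Nat.modEq_iff_dvd' hlt.le]
        exact (ZMod.natCast_eq_natCast_iff _ _ _).1 heq
      have h2 : F e' - F e = g * (b - a) := by
        rw [Nat.mul_sub, ← ha, ← hb]
      rw [h2] at h1
      have h3 : Nat.Coprime (2 ^ k) g := by
        refine Nat.Coprime.pow_left _ ?_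
        exact Nat.Coprime.coprime_dvd_right (Nat.gcd_dvd_left _ _) (hodd e)
      exact h3.dvd_of_dvd_mul_left h1
  rcases lt_or_gt_of_ne (fun hh : F e = F e' => hne (hFinj hh)) with hlt | hlt
  · exact key e e' hlt heq
  · exact key e' e hlt heq.symm

end Pool.Agent.N756.UA
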