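import Pool.Agent.N756.UA.Kum
import Pool.Agent.N756.UA.Ht

/-! Adjoining the `ℓ`-th roots of two numbers: discriminant and conductor. -/

set_option autoImplicit false

open NumberField IsDedekindDomain Module

namespace Pool.Agent.N756.UA

section cond

variable {K L : Type*} [Field K] [NumberField K] [Field L] [NumberField L] [Algebra K L]

theorem dvd_ri {ℓ : ℕ} (hℓ : ℓ.Prime) {y : K} {α : L} (hα : α ^ ℓ = algebraMap K L y)
    (w : HeightOneSpectrum (𝓞 L)) (h : ¬ (ℓ : ℤ) ∣ od (w.under (𝓞 K)) y) : ℓ ∣ ri K w := by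
  have h1 : (ℓ : ℤ) * od w α = ri K w * od (w.under (𝓞 K)) y := by
    rw [← od_under, ← hα, od_pow]
  have h2 : (ℓ : ℤ) ∣ ri K w * od (w.under (𝓞 K)) y := ⟨_, h1.symm⟩
  have h3 := (Nat.prime_iff_prime_int.1 hℓ).dvd_or_dvd h2
  exact_mod_cast h3.resolve_right h

theorem le_ri {ℓ : ℕ} (hℓ : ℓ.Prime) {y : K} {α : L} (hα : α ^ ℓ = algebraMap K L y)
    (w : HeightOneSpectrum (𝓞 L)) (h : ¬ (ℓ : ℤ) ∣ od (w.under (𝓞 K)) y) : (ℓ : ℝ) ≤ ri K w := by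
  exact_mod_cast Nat.le_of_dvd (ri_pos w) (dvd_ri hℓ hα w h)

/-- the conductor of the pair `α, β` -/
theorem cond_le {ℓ : ℕ} (hℓ : ℓ.Prime) {y z : K} (hy : y ≠ 0) (hz : z ≠ 0) {α β : L}
    (hα : α ^ ℓ = algebraMap K L y) (hβ : β ^ ℓ = algebraMap K L z)
    (T : Finset (HeightOneSpectrum (𝓞 L))) (hT : ∀ w ∈ T, od w α ≠ 0 ∨ od w β ≠ 0)
    (Z : Finset (HeightOneSpectrum (𝓞 K))) (hZ : ∀ v, od v y ≠ 0 ∨ od v z ≠ 0 → v ∈ Z) :
    ℓ * ∑ w ∈ T, nu w ≤ 2 * (finrank K L * ∑ v ∈ Z, ((|od v y| + |od v z| : ℤ) : ℝ) * nu v) := by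
  classical
  have key : ∀ w : HeightOneSpectrum (𝓞 L), ∀ (x : K) (γ : L), γ ^ ℓ = algebraMap K L x →
      od w γ ≠ 0 → od (w.under (𝓞 K)) x ≠ 0 := by
    intro w x γ h1 h2 h3
    have h4 : (ℓ : ℤ) * od w γ = ri K w * od (w.under (𝓞 K)) x := by
      rw [← od_under, ← h1, od_pow]
    rw [h3, mul_zero] at h4
    have h5 : (ℓ : ℤ) ≠ 0 := by exact_mod_cast hℓ.ne_zero
    exact h2 ((mul_eq_zero.1 h4).resolve_left h5)
  have hTZ : ∀ w ∈ T, w.under (𝓞 K) ∈ Z := by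
    intro w hw
    apply hZ
    rcases hT w hw with h | h
    · exact Or.inl (key w y α hα h)
    · exact Or.inr (key w z β hβ h)
  have hone : ∀ v ∈ Z.filter (fun v => ¬ (ℓ : ℤ) ∣ od v y ∨ ¬ (ℓ : ℤ) ∣ od v z),
      (1 : ℝ) ≤ ((|od v y| + |od v z| : ℤ) : ℝ) := by
    intro v hv
    rw [Finset.mem_filter] at hv
    have h1 : (1 : ℤ) ≤ |od v y| + |od v z| := by
      have h2 := abs_nonneg (od v y)
      have h3 := abs_nonneg (od v z)
      rcases hv.2 with h | h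
      · have : od v y ≠ 0 := by rintro h0; rw [h0] at h; exact h (dvd_zero _)
        have := abs_pos.2 this
        omega
      · have : od v z ≠ 0 := by rintro h0; rw [h0] at h; exact h (dvd_zero _)
        have := abs_pos.2 this
        omega
    exact_mod_cast h1
  have htwo : ∀ v ∈ Z.filter (fun v => ¬ (¬ (ℓ : ℤ) ∣ od v y ∨ ¬ (ℓ : ℤ) ∣ od v z) ∧
      (od v y ≠ 0 ∨ od v z ≠ 0)), (ℓ : ℝ) ≤ ((|od v y| + |od v z| : ℤ) : ℝ) := by
    intro v hv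
    rw [Finset.mem_filter] at hv
    obtain ⟨-, h0, h1⟩ := hv
    push Not at h0
    have h2 := abs_nonneg (od v y)
    have h3 := abs_nonneg (od v z)
    have h4 : (ℓ : ℤ) ≤ |od v y| + |od v z| := by
      rcases h1 with h | h
      · have := Int.le_of_dvd (abs_pos.2 h) ((dvd_abs _ _).2 h0.1)
        omega
      · have := Int.le_of_dvd (abs_pos.2 h) ((dvd_abs _ _).2 h0.2)
        omega
    exact_mod_cast h4
  have hsub : ∀ S : Finset (HeightOneSpectrum (𝓞 K)), S ⊆ Z →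
      ∑ v ∈ S, ((|od v y| + |od v z| : ℤ) : ℝ) * nu v ≤
        ∑ v ∈ Z, ((|od v y| + |od v z| : ℤ) : ℝ) * nu v := by
    intro S hS
    refine Finset.sum_le_sum_of_subset_of_nonneg hS fun v _ _ => ?_
    refine mul_nonneg ?_ (nu_pos v).le
    exact_mod_cast add_nonneg (abs_nonneg _) (abs_nonneg _)
  have hfr : (0 : ℝ) ≤ finrank K L := Nat.cast_nonneg _
  have hℓ0 : (0 : ℝ) ≤ ℓ := Nat.cast_nonneg _
  -- first part
  have hA : (ℓ : ℝ) * ∑ w ∈ T with (¬ (ℓ : ℤ) ∣ od (w.under (𝓞 K)) y ∨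
      ¬ (ℓ : ℤ) ∣ od (w.under (𝓞 K)) z), nu w ≤
      finrank K L * ∑ v ∈ Z, ((|od v y| + |od v z| : ℤ) : ℝ) * nu v := by
    refine (sum_up (Z.filter (fun v => ¬ (ℓ : ℤ) ∣ od v y ∨ ¬ (ℓ : ℤ) ∣ od v z))
      (T.filter fun w => (¬ (ℓ : ℤ) ∣ od (w.under (𝓞 K)) y ∨
      ¬ (ℓ : ℤ) ∣ od (w.under (𝓞 K)) z)) ℓ ?_ ?_).trans ?_
    · intro w hw
      rw [Finset.mem_filter] at hw ⊢
      exact ⟨hTZ w hw.1, hw.2⟩
    · intro w hw
      rw [Finset.mem_filter] at hw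
      rcases hw.2 with h | h
      · exact le_ri hℓ hα w h
      · exact le_ri hℓ hβ w h
    · refine mul_le_mul_of_nonneg_left ?_ hfr
      refine le_trans ?_ (hsub (Z.filter (fun v => ¬ (ℓ : ℤ) ∣ od v y ∨ ¬ (ℓ : ℤ) ∣ od v z))
        (Finset.filter_subset _ _))
      refine Finset.sum_le_sum fun v hv => ?_
      have := mul_le_mul_of_nonneg_right (hone v hv) (nu_pos v).le
      rwa [one_mul] at this
  have hB : (ℓ : ℝ) * ∑ w ∈ T with ¬ (¬ (ℓ : ℤ) ∣ od (w.under (𝓞 K)) y ∨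
      ¬ (ℓ : ℤ) ∣ od (w.under (𝓞 K)) z), nu w ≤
      finrank K L * ∑ v ∈ Z, ((|od v y| + |od v z| : ℤ) : ℝ) * nu v := by
    have h1 := sum_up (Z.filter (fun v => ¬ (¬ (ℓ : ℤ) ∣ od v y ∨ ¬ (ℓ : ℤ) ∣ od v z) ∧
      (od v y ≠ 0 ∨ od v z ≠ 0))) (T.filter fun w => ¬ (¬ (ℓ : ℤ) ∣ od (w.under (𝓞 K)) y ∨
      ¬ (ℓ : ℤ) ∣ od (w.under (𝓞 K)) z)) 1 ?_ ?_
    · rw [one_mul] at h1
      refine (mul_le_mul_of_nonneg_left h1 hℓ0).trans ?_
      rw [mul_left_comm]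
      refine mul_le_mul_of_nonneg_left ?_ hfr
      refine le_trans ?_ (hsub (Z.filter (fun v => ¬ (¬ (ℓ : ℤ) ∣ od v y ∨ ¬ (ℓ : ℤ) ∣ od v z) ∧
        (od v y ≠ 0 ∨ od v z ≠ 0))) (Finset.filter_subset _ _))
      rw [Finset.mul_sum]
      refine Finset.sum_le_sum fun v hv => ?_
      exact mul_le_mul_of_nonneg_right (htwo v hv) (nu_pos v).le
    · intro w hw
      rw [Finset.mem_filter] at hw ⊢
      refine ⟨hTZ w hw.1, hw.2, ?_⟩
      rcases hT w hw.1 with h | h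
      · exact Or.inl (key w y α hα h)
      · exact Or.inr (key w z β hβ h)
    · intro w _
      exact_mod_cast ri_pos (K := K) w
  rw [← Finset.sum_filter_add_sum_filter_not T (fun w => ¬ (ℓ : ℤ) ∣ od (w.under (𝓞 K)) y ∨
      ¬ (ℓ : ℤ) ∣ od (w.under (𝓞 K)) z), mul_add]
  linarith

/-- the preimage of a finite set of primes -/
theorem exists_above (S : Finset (HeightOneSpectrum (𝓞 K))) :
    ∃ W : Finset (HeightOneSpectrum (𝓞 L)), ∀ w, w ∈ W ↔ w.under (𝓞 K) ∈ S := by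
  classical
  choose F hF1 hF2 using (exists_fib (K := K) (L := L))
  refine ⟨S.biUnion F, fun w => ?_⟩
  rw [Finset.mem_biUnion]
  constructor
  · rintro ⟨v, hv, hw⟩
    rw [(hF1 v w).1 hw]
    exact hv
  · intro h
    exact ⟨_, h, (hF1 _ w).2 rfl⟩

/-- one step -/
theorem disc_step {ℓ : ℕ} (hℓ : ℓ.Prime) (hfr : finrank K L ≤ ℓ) {y : K} (hy : y ≠ 0)
    {α : L} (hα : α ^ ℓ = algebraMap K L y) (had : IntermediateField.adjoin K {α} = ⊤)
    (S : Finset (HeightOneSpectrum (𝓞 K))) (hS : ∀ v, v ∈ S ↔ ¬ (ℓ : ℤ) ∣ od v y) :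
    ldisc L ≤ finrank K L * (ldisc K + ∑ v ∈ S, nu v) + finrank ℚ L * Real.log ℓ := by
  obtain ⟨W, hW⟩ := exists_above (L := L) S
  have h1 := disc_le hℓ hfr hy hα had W (fun w hw => (hW w).2 ((hS _).2 hw))
  have h2 := sum_up S W (ℓ : ℝ) (fun w hw => (hW w).1 hw)
    (fun w hw => le_ri hℓ hα w ((hS _).1 ((hW w).1 hw)))
  have h3 : ((ℓ - 1 : ℕ) : ℝ) * ∑ w ∈ W, nu w ≤ ℓ * ∑ w ∈ W, nu w := by
    refine mul_le_mul_of_nonneg_right ?_ (Finset.sum_nonneg fun w _ => (nu_pos w).le)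
    exact_mod_cast Nat.sub_le _ _
  rw [mul_add]
  linarith

end cond

theorem dvd_finite {K : Type*} [Field K] [NumberField K] (ℓ : ℕ) {y : K} (hy : y ≠ 0) :
    {v : HeightOneSpectrum (𝓞 K) | ¬ (ℓ : ℤ) ∣ od v y}.Finite := by
  refine (od_finite hy).subset fun v hv h => hv ?_
  rw [h]; exact dvd_zero _

/-- two steps -/
theorem two_step (K : Type) [Field K] [NumberField K] {ℓ : ℕ} (hℓ : ℓ.Prime) {y z : K}
    (hy : y ≠ 0) (hz : z ≠ 0) (S : Finset (HeightOneSpectrum (𝓞 K)))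
    (hS : ∀ v, ¬ (ℓ : ℤ) ∣ od v y ∨ ¬ (ℓ : ℤ) ∣ od v z → v ∈ S) :
    ∃ (L : Type) (_ : Field L) (_ : NumberField L) (_ : Algebra K L) (α β : L),
      α ^ ℓ = algebraMap K L y ∧ β ^ ℓ = algebraMap K L z ∧
      ldisc L ≤ finrank K L * (ldisc K + ∑ v ∈ S, nu v) + 2 * (finrank ℚ L * Real.log ℓ) := by
  classical
  obtain ⟨L₁, _, _, _, α, hα, had, hfr⟩ := exists_kummer K hℓ.ne_zero y
  have hz1 : algebraMap K L₁ z ≠ 0 := by simpa using hz
  obtain ⟨L, _, _, _, β, hβ, had', hfr'⟩ := exists_kummer L₁ hℓ.ne_zero (algebraMap K L₁ z)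
  let _ : Algebra K L := ((algebraMap L₁ L).comp (algebraMap K L₁)).toAlgebra
  have htow : IsScalarTower K L₁ L := IsScalarTower.of_algebraMap_eq fun _ => rfl
  refine ⟨L, inferInstance, inferInstance, inferInstance, algebraMap L₁ L α, β, ?_, ?_, ?_⟩
  · rw [← map_pow, hα]; rfl
  · rw [hβ]; rfl
  have h1 := disc_step hℓ hfr hy hα had (dvd_finite ℓ hy).toFinset (fun v => by simp)
  have h2 := disc_step hℓ hfr' hz1 hβ had' (dvd_finite ℓ hz1).toFinset (fun v => by simp)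
  -- the primes of the second step
  have h3 := sum_up (K := K) (S.filter fun v => ¬ ¬ (ℓ : ℤ) ∣ od v y) (dvd_finite ℓ hz1).toFinset 1
    (fun w hw => by
      have hw' : ¬ (ℓ : ℤ) ∣ od w (algebraMap K L₁ z) := by simpa using hw
      rw [od_under] at hw'
      rw [Finset.mem_filter]
      refine ⟨hS _ (Or.inr fun h => hw' (dvd_mul_of_dvd_right h _)), fun hcon => hw' ?_⟩
      exact dvd_mul_of_dvd_left (by exact_mod_cast dvd_ri hℓ hα w hcon) _)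
    (fun w _ => by exact_mod_cast ri_pos (K := K) w)
  have h4 : ∑ v ∈ (dvd_finite ℓ hy).toFinset, nu v ≤ ∑ v ∈ S with ¬ (ℓ : ℤ) ∣ od v y, nu v := by
    refine Finset.sum_le_sum_of_subset_of_nonneg ?_ fun v _ _ => (nu_pos v).le
    intro v hv
    have hv' : ¬ (ℓ : ℤ) ∣ od v y := by simpa using hv
    exact Finset.mem_filter.2 ⟨hS v (Or.inl hv'), hv'⟩
  have h5 := Finset.sum_filter_add_sum_filter_not S (fun v => ¬ (ℓ : ℤ) ∣ od v y) nu
  have h6 : finrank K L₁ * finrank L₁ L = finrank K L := Module.finrank_mul_finrank K L₁ L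
  have h7 : finrank ℚ L₁ * finrank L₁ L = finrank ℚ L := Module.finrank_mul_finrank ℚ L₁ L
  have h6' : (finrank K L₁ : ℝ) * finrank L₁ L = finrank K L := by exact_mod_cast h6
  have h7' : (finrank ℚ L₁ : ℝ) * finrank L₁ L = finrank ℚ L := by exact_mod_cast h7
  have hp1 : (0 : ℝ) ≤ finrank K L₁ := Nat.cast_nonneg _
  have hp2 : (0 : ℝ) ≤ finrank L₁ L := Nat.cast_nonneg _
  rw [one_mul] at h3
  have h8 : ldisc L₁ + ∑ v ∈ (dvd_finite ℓ hz1).toFinset, nu v ≤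
      finrank K L₁ * (ldisc K + ∑ v ∈ S, nu v) + finrank ℚ L₁ * Real.log ℓ := by
    have e1 := mul_le_mul_of_nonneg_left h4 hp1
    rw [← h5]
    rw [mul_add] at h1
    linarith
  have h9 := mul_le_mul_of_nonneg_left h8 hp2
  have h10 : (finrank L₁ L : ℝ) * (finrank K L₁ * (ldisc K + ∑ v ∈ S, nu v) +
      finrank ℚ L₁ * Real.log ℓ) =
      finrank K L * (ldisc K + ∑ v ∈ S, nu v) + finrank ℚ L * Real.log ℓ := by
    rw [← h6', ← h7']; ring
  linarith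

end Pool.Agent.N756.UA
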