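import Pool.Agent.N756.UA.Low

/-! The weak abc conjecture: dependence of the constant on the field. -/

set_option autoImplicit false

open NumberField IsDedekindDomain Module Height

namespace Pool.Agent.N756.UA

/-- the covering step, for the triple itself -/
theorem cover_ext (K : Type) [Field K] [NumberField K] {a b c : K} (ha : a ≠ 0) (hb : b ≠ 0)
    (hc : c ≠ 0) {ℓ : ℕ} (hℓ : ℓ.Prime) :
    ∃ (L : Type) (_ : Field L) (_ : NumberField L) (_ : Algebra K L),
      Real.log (rd L) ≤ Real.log (rd K) + Real.log (N a b c) + 2 * Real.log ℓ ∧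
      ℓ * Real.log (N (algebraMap K L a) (algebraMap K L b) (algebraMap K L c)) ≤
        8 * Real.log (H a b c) := by
  classical
  have hy : a / b ≠ 0 := div_ne_zero ha hb
  have hz : b / c ≠ 0 := div_ne_zero hb hc
  obtain ⟨L, _, _, _, α, β, hα, hβ, hdisc⟩ := two_step K hℓ hy hz (cS_finite ha hb hc).toFinset
    (fun v hv => by
      rw [Set.Finite.mem_toFinset, mem_cS ha hb hc]
      rcases hv with h | h
      · left; rintro h0; rw [h0] at h; exact h (dvd_zero _)
      · right; rintro h0; rw [h0] at h; exact h (dvd_zero _))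
  have hn : finrank ℚ K * finrank K L = finrank ℚ L := Module.finrank_mul_finrank ℚ K L
  have hn' : (finrank ℚ K : ℝ) * finrank K L = finrank ℚ L := by exact_mod_cast hn
  have hK : (0 : ℝ) < finrank ℚ K := fr_pos
  have hL : (0 : ℝ) < finrank ℚ L := fr_pos
  have hKL : (0 : ℝ) < finrank K L := by exact_mod_cast finrank_pos
  refine ⟨L, inferInstance, inferInstance, inferInstance, ?_, ?_⟩
  · rw [log_rd, log_rd, log_N ha hb hc, ← add_div, div_add' _ _ _ hK.ne',
      div_le_div_iff₀ hL hK, ← hn']
    rw [← hn'] at hdisc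
    nlinarith
  · have ha' : algebraMap K L a ≠ 0 := by simpa using ha
    have hb' : algebraMap K L b ≠ 0 := by simpa using hb
    have hc' : algebraMap K L c ≠ 0 := by simpa using hc
    rw [log_N ha' hb' hc', log_H]
    have h1 := cond_le hℓ hy hz hα hβ (cS_finite ha' hb' hc').toFinset
      (fun w hw => by
        rw [Set.Finite.mem_toFinset, mem_cS ha' hb' hc', ← map_div₀, ← map_div₀, ← hα, ← hβ,
          od_pow, od_pow] at hw
        rcases hw with h | h
        · left; intro h0; rw [h0, mul_zero] at h; exact h rfl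
        · right; intro h0; rw [h0, mul_zero] at h; exact h rfl)
      (cS_finite ha hb hc).toFinset
      (fun v hv => by
        rw [Set.Finite.mem_toFinset, mem_cS ha hb hc]
        exact hv)
    have h2 := sum_abs_le hy (cS_finite ha hb hc).toFinset
    have h3 := sum_abs_le hz (cS_finite ha hb hc).toFinset
    have h4 : logHeight₁ (a / b) ≤ logHeight ![a, b, c] := by
      rw [logHeight₁_div_eq_logHeight]
      have := logHeight_comp_le (![0, 1] : Fin 2 → Fin 3) (![a, b, c] : Fin 3 → K)
      convert this using 2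
      funext i; fin_cases i <;> rfl
    have h5 : logHeight₁ (b / c) ≤ logHeight ![a, b, c] := by
      rw [logHeight₁_div_eq_logHeight]
      have := logHeight_comp_le (![1, 2] : Fin 2 → Fin 3) (![a, b, c] : Fin 3 → K)
      convert this using 2
      funext i; fin_cases i <;> rfl
    have h6 : ∑ v ∈ (cS_finite ha hb hc).toFinset,
        ((|od v (a / b)| + |od v (b / c)| : ℤ) : ℝ) * nu v =
        ∑ v ∈ (cS_finite ha hb hc).toFinset, ((|od v (a / b)| : ℤ) : ℝ) * nu v +
        ∑ v ∈ (cS_finite ha hb hc).toFinset, ((|od v (b / c)| : ℤ) : ℝ) * nu v := by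
      rw [← Finset.sum_add_distrib]
      refine Finset.sum_congr rfl fun v _ => ?_
      push_cast
      ring
    rw [h6] at h1
    have h7 : (ℓ : ℝ) * ∑ w ∈ (cS_finite ha' hb' hc').toFinset,
        nu w ≤ finrank K L * (8 * logHeight ![a, b, c]) := by
      refine h1.trans ?_
      rw [mul_left_comm]
      refine mul_le_mul_of_nonneg_left ?_ hKL.le
      linarith
    rw [mul_div_assoc', mul_div_assoc', div_le_div_iff₀ hL hK, ← hn']
    nlinarith

section weak

variable {K : Type*} [Field K] [NumberField K]

/-- the absolute logarithmic height -/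
noncomputable def ht (x : K) : ℝ := logHeight₁ x / finrank ℚ K

open Classical in
/-- the conductor `cond(x)` of the problem -/
noncomputable def cond (x : K) : ℝ :=
  (∑ᶠ v : HeightOneSpectrum (𝓞 K),
    if FinitePlace.mk v x < 1 then Real.log (Ideal.absNorm v.asIdeal) else 0) / finrank ℚ K

theorem place_lt_one_iff (v : HeightOneSpectrum (𝓞 K)) {x : K} (hx : x ≠ 0) :
    FinitePlace.mk v x < 1 ↔ 0 < od v x := by
  have h1 := log_place v hx
  have h2 : 0 < FinitePlace.mk v x := FinitePlace.pos_iff.2 hx
  have h3 := nu_pos v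
  rw [← Real.log_neg_iff h2, h1]
  constructor
  · intro h
    have : 0 < (od v x : ℝ) := by
      by_contra hcon
      push Not at hcon
      nlinarith
    exact_mod_cast this
  · intro h
    have : 0 < (od v x : ℝ) := by exact_mod_cast h
    nlinarith

theorem cond_eq {x : K} (hx : x ≠ 0) (Z : Finset (HeightOneSpectrum (𝓞 K)))
    (hZ : ∀ v, 0 < od v x → v ∈ Z) [DecidablePred fun v : HeightOneSpectrum (𝓞 K) => 0 < od v x] :
    cond x = (∑ v ∈ Z, if 0 < od v x then nu v else 0) / finrank ℚ K := by
  classical
  unfold cond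
  congr 1
  rw [finsum_eq_sum_of_support_subset (s := Z)]
  · refine Finset.sum_congr rfl fun v _ => ?_
    unfold nu
    by_cases h : 0 < od v x
    · rw [if_pos h, if_pos ((place_lt_one_iff v hx).2 h)]
    · rw [if_neg h, if_neg (fun h' => h ((place_lt_one_iff v hx).1 h'))]
  · intro v hv
    apply hZ
    by_contra hcon
    apply hv
    exact if_neg (fun h' => hcon ((place_lt_one_iff v hx).1 h'))

/-- the sum of the three conductors of `a / b` is the conductor of the triple `(a, b - a, -b)` -/
theorem cond_sum_le {a b : K} (ha : a ≠ 0) (hb : b ≠ 0) (hab : b - a ≠ 0) :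
    cond (a / b) + cond (a / b)⁻¹ + cond (a / b - 1) ≤ Real.log (N a (b - a) (-b)) := by
  classical
  have hb' : -b ≠ 0 := neg_ne_zero.2 hb
  have hx : a / b ≠ 0 := div_ne_zero ha hb
  have hx1 : a / b - 1 ≠ 0 := by
    rw [div_sub_one hb]
    refine div_ne_zero ?_ hb
    rw [← neg_sub]
    exact neg_ne_zero.2 hab
  set Z := (cS_finite ha hab hb').toFinset with hZ
  have odneg : ∀ (v : HeightOneSpectrum (𝓞 K)) (t : K), od v (-t) = od v t := by
    intro v t; unfold od; rw [Valuation.map_neg]
  have hx1' : ∀ v : HeightOneSpectrum (𝓞 K), od v (a / b - 1) = od v (b - a) - od v b := by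
    intro v
    have : a / b - 1 = -((b - a) / b) := by field_simp; ring
    rw [this, odneg, od_div v hab hb]
  have hmem : ∀ v, v ∈ Z ↔ ¬ (od v a = od v (b - a) ∧ od v (b - a) = od v b) := by
    intro v
    rw [hZ, Set.Finite.mem_toFinset]
    show ¬ _ ↔ _
    rw [← od_eq_iff v ha hab, ← od_eq_iff v hab hb', odneg]
  have m1 : ∀ v, 0 < od v (a / b) → v ∈ Z := by
    intro v hv
    rw [od_div v ha hb] at hv
    rw [hmem]
    rintro ⟨h1, h2⟩
    omega
  have m2 : ∀ v, 0 < od v (a / b)⁻¹ → v ∈ Z := by
    intro v hv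
    rw [od_inv, od_div v ha hb] at hv
    rw [hmem]
    rintro ⟨h1, h2⟩
    omega
  have m3 : ∀ v, 0 < od v (a / b - 1) → v ∈ Z := by
    intro v hv
    rw [hx1'] at hv
    rw [hmem]
    rintro ⟨h1, h2⟩
    omega
  rw [cond_eq hx Z m1, cond_eq (inv_ne_zero hx) Z m2, cond_eq hx1 Z m3, log_N ha hab hb', ← hZ,
    ← add_div, ← add_div, ← Finset.sum_add_distrib, ← Finset.sum_add_distrib]
  refine div_le_div_of_nonneg_right (Finset.sum_le_sum fun v _ => ?_) (Nat.cast_nonneg _)
  have hnu := nu_pos v
  -- at most one of the three orders is positive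
  have hval : ∀ {s t : K}, s ≠ 0 → t ≠ 0 → (od v s < od v t ↔ v.valuation K t < v.valuation K s) := by
    intro s t hs ht
    have h1 : v.valuation K s ≠ 0 := (Valuation.ne_zero_iff _).2 hs
    have h2 : v.valuation K t ≠ 0 := (Valuation.ne_zero_iff _).2 ht
    rw [← WithZero.log_lt_log h2 h1]
    unfold od
    omega
  have k1 : od v b < od v a → od v (b - a) = od v b := by
    intro h
    rw [od_eq_iff v hab hb, Valuation.map_sub_swap]
    exact Valuation.map_sub_eq_of_lt_right _ ((hval hb ha).1 h)
  have k2 : od v a < od v b → od v (b - a) = od v a := by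
    intro h
    rw [od_eq_iff v hab ha, Valuation.map_sub_swap]
    exact Valuation.map_sub_eq_of_lt_left _ ((hval ha hb).1 h)
  have e1 := od_div v ha hb
  have e2 := od_inv v (a / b)
  have e3 := hx1' v
  split_ifs with i1 i2 i3 i4 i5 i6 <;> first
    | linarith
    | (exfalso
       first
        | (have := k1 (by omega); omega)
        | (have := k2 (by omega); omega)
        | omega)

end weak

end Pool.Agent.N756.UA
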